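import Pool.Agent.W798.DBM.Stmts

/-!
# The Airy side (MP_c8b564_pr)
-/

namespace Pool.Agent.W798.DBM

open MeasureTheory ProbabilityTheory Set Filter Topology
open scoped NNReal ENNReal

universe u

lemma dsaForm_one (b : H11 →ₗ[ℝ] H11 →ₗ[ℝ] ℝ) (f g : H11) :
    dsaForm 1 b f g = energy f g + 2 * b f g := by
  unfold dsaForm; simp

/-- the set of orthonormal frames -/
def frames (k : ℕ) : Set (Fin k → H11) := {f | Orthon f}

/-- the infimum over a countable set of frames, as a function of the noise values -/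
noncomputable def GG {k : ℕ} (D : Set (Fin k → H11)) (z : D × Fin k → ℝ) : ℝ :=
  ⨅ f : D, ∑ j, (energy (f.1 j) (f.1 j) + 2 * z (f, j))

lemma measurable_GG {k : ℕ} (D : Set (Fin k → H11)) [Countable D] : Measurable (GG D) := by
  unfold GG
  refine Measurable.iInf fun f => ?_
  refine Finset.measurable_fun_sum _ fun j _ => ?_
  exact (measurable_const.add ((measurable_pi_apply _).const_mul 2))

lemma memLp_mul_self (hSup : TSup) (u : H11) : MemLp (fun x => fn u x * fn u x) 2 hl := by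
  set K : ℝ := 2 * (√(∫ y in Ioi (0:ℝ), fn u y ^ 2) * √(∫ y in Ioi (0:ℝ), dv u y ^ 2)) with hK
  have hm : AEStronglyMeasurable (fn u) hl := (memLp_fn u).1
  refine MemLp.of_le_mul (c := √K) (memLp_fn u) (hm.mul hm) ?_
  have : ∀ᵐ x ∂hl, x ∈ Ioi (0:ℝ) := by
    unfold hl; exact ae_restrict_mem measurableSet_Ioi
  filter_upwards [this] with x hx
  have h1 := hSup u x (le_of_lt hx)
  rw [norm_mul]
  refine mul_le_mul_of_nonneg_right ?_ (norm_nonneg _)
  rw [Real.norm_eq_abs]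
  exact Real.abs_le_sqrt h1

/-- the square of an element of `H11` as an element of `L²` -/
noncomputable def sqL (hSup : TSup) (u : H11) : Lp ℝ 2 hl := (memLp_mul_self hSup u).toLp _

lemma sqL_ae (hSup : TSup) (u : H11) : (sqL hSup u : ℝ → ℝ) =ᵐ[hl] fun x => fn u x * fn u x :=
  MemLp.coeFn_toLp _

lemma orthon_phi {Q : H11 → H11 → ℝ} {lam : ℕ → ℝ} {φ : ℕ → H11} (h : IsEigSys Q lam φ) (k : ℕ) :
    (fun j : Fin k => φ j) ∈ frames k := by
  intro i j
  show ip (φ i) (φ j) = _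
  by_cases hij : i = j
  · subst hij
    rw [if_pos rfl]; exact (h i).1
  · rw [if_neg hij]
    rcases lt_or_gt_of_ne (fun e => hij (Fin.ext e) : (i:ℕ) ≠ j) with h1 | h1
    · exact (h j).2.1 i h1
    · rw [ip_comm]; exact (h i).2.1 j h1

/-- density of `D` in the frames -/
def DenseFr {k : ℕ} (D : Set (Fin k → H11)) : Prop := ∀ f ∈ frames k, ∃ g : ℕ → Fin k → H11,
  (∀ n, g n ∈ D) ∧ ∀ j, Tendsto (fun n => hnsq (g n j - f j)) atTop (𝓝 0)

/-- continuity of the diagonal of a form -/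
def DiagCont (b : H11 →ₗ[ℝ] H11 →ₗ[ℝ] ℝ) : Prop := ∀ (f : ℕ → H11) (g : H11),
    Tendsto (fun n => hnsq (f n - g)) atTop (𝓝 0) →
    Tendsto (fun n => b (f n) (f n)) atTop (𝓝 (b g g))

lemma inf_le_frame (hCont : TCont) {k : ℕ} {D : Set (Fin k → H11)} (hD : DenseFr D)
    {b : H11 →ₗ[ℝ] H11 →ₗ[ℝ] ℝ} (hb : DiagCont b) {h : ℝ → ℝ} (hh : Measurable h)
    (hh1 : ∀ x, |h x| ≤ 1) (w : ℝ) {z : D × Fin k → ℝ}
    (hz : ∀ (f : D) (j : Fin k), z (f, j) = b (f.1 j) (f.1 j)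
      + w * ∫ x in Ioi (0:ℝ), h x * fn (f.1 j) x ^ 2)
    (hbdd : BddBelow (range fun f : D => ∑ j, (energy (f.1 j) (f.1 j) + 2 * z (f, j))))
    {φ : Fin k → H11} (hφ : φ ∈ frames k) :
    GG D z ≤ ∑ j, (energy (φ j) (φ j) + 2 * (b (φ j) (φ j)
      + w * ∫ x in Ioi (0:ℝ), h x * fn (φ j) x ^ 2)) := by
  obtain ⟨g, hg1, hg2⟩ := hD φ hφ
  have h1 : ∀ n, GG D z ≤ ∑ j, (energy (g n j) (g n j) + 2 * (b (g n j) (g n j)
      + w * ∫ x in Ioi (0:ℝ), h x * fn (g n j) x ^ 2)) := by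
    intro n
    have := ciInf_le hbdd ⟨g n, hg1 n⟩
    unfold GG
    refine this.trans (le_of_eq ?_)
    refine Finset.sum_congr rfl fun j _ => ?_
    simp only
    rw [hz ⟨g n, hg1 n⟩ j]
  refine ge_of_tendsto' (x := (atTop : Filter ℕ)) ?_ h1
  refine tendsto_finsetSum _ fun j _ => ?_
  have hc := hCont (fun n => g n j) (φ j) (hg2 j)
  refine hc.1.add (Tendsto.const_mul 2 ?_)
  exact (hb _ _ (hg2 j)).add (Tendsto.const_mul w (hc.2.2 h hh hh1))

lemma frames_sum_ip {k : ℕ} {f : Fin k → H11} (hf : f ∈ frames k) (j : Fin k) :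
    ∫ x in Ioi (0:ℝ), fn (f j) x ^ 2 = 1 := by
  rw [← ip_self]
  have := hf j j
  simpa using this

lemma abs_integral_h_le {h : ℝ → ℝ} (hh1 : ∀ x, |h x| ≤ 1) (u : H11) :
    |∫ x in Ioi (0:ℝ), h x * fn u x ^ 2| ≤ ∫ x in Ioi (0:ℝ), fn u x ^ 2 := by
  refine (abs_integral_le_integral_abs).trans ?_
  refine integral_mono_of_nonneg (Eventually.of_forall fun x => abs_nonneg _)
    (integrable_fn_sq u) (Eventually.of_forall fun x => ?_)
  simp only
  rw [abs_mul, abs_of_nonneg (sq_nonneg (fn u x))]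
  exact mul_le_of_le_one_left (sq_nonneg _) (hh1 x)

lemma integrable_h_mul {h : ℝ → ℝ} (hh : Measurable h) (hh1 : ∀ x, |h x| ≤ 1) (u : H11) :
    IntegrableOn (fun x => h x * fn u x ^ 2) (Ioi 0) := by
  refine Integrable.mono (integrable_fn_sq u)
    (hh.aestronglyMeasurable.mul (integrable_fn_sq u).1) (Eventually.of_forall fun x => ?_)
  rw [norm_mul]
  exact mul_le_of_le_one_left (norm_nonneg _) (hh1 x)

/-- the sum of the first `k` eigenvalues is the infimum over `D` -/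
lemma sum_lam_eq (hCont : TCont) (hKF : TKF) {k : ℕ} {D : Set (Fin k → H11)} (hDf : D ⊆ frames k)
    (hD : DenseFr D) {b : H11 →ₗ[ℝ] H11 →ₗ[ℝ] ℝ} (hs : ∀ f g, b f g = b g f) (hb : DiagCont b)
    {lam : ℕ → ℝ} {φ : ℕ → H11} (hφ : IsEigSys (dsaForm 1 b) lam φ) {z : D × Fin k → ℝ}
    (hz : ∀ (f : D) (j : Fin k), z (f, j) = b (f.1 j) (f.1 j)) :
    ∑ j ∈ Finset.range k, lam j = GG D z := by
  have hne : Nonempty D := by
    obtain ⟨g, hg, -⟩ := hD _ (orthon_phi hφ k)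
    exact ⟨⟨g 0, hg 0⟩⟩
  have hlow : ∀ f : D, ∑ j ∈ Finset.range k, lam j
      ≤ ∑ j, (energy (f.1 j) (f.1 j) + 2 * z (f, j)) := by
    intro f
    refine (hKF b lam φ hs hφ k f.1 (hDf f.2)).trans (le_of_eq ?_)
    refine Finset.sum_congr rfl fun j _ => ?_
    rw [dsaForm_one, hz]
  refine le_antisymm (le_ciInf hlow) ?_
  have h1 := inf_le_frame hCont hD hb (h := fun _ => 0) measurable_const (by simp) 0 (z := z)
    (by intro f j; rw [hz]; simp) ⟨_, by rintro _ ⟨f, rfl⟩; exact hlow f⟩ (orthon_phi hφ k)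
  refine h1.trans (le_of_eq ?_)
  rw [Finset.sum_range]
  refine Finset.sum_congr rfl fun j _ => ?_
  have := (hφ j).2.2.1
  rw [dsaForm_one] at this
  simp only [zero_mul, add_zero]
  exact this


section process

variable {Ω : Type u} [MeasurableSpace Ω] {P : Measure Ω}
  {a : ℝ} {ξ : ℝ≥0 → Lp ℝ 2 hl → Ω → ℝ} {B : ℝ≥0 → Ω → H11 →ₗ[ℝ] H11 →ₗ[ℝ] ℝ}
  {lam : ℝ≥0 → Ω → ℕ → ℝ}

/-- almost surely the noise form on the countable set `D` is the pairing of the noise with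
squares -/
lemma ae_pairing (hSup : TSup) (hB : IsNoiseForm P ξ B) {k : ℕ} (D : Set (Fin k → H11))
    [Countable D] (t : ℝ≥0) :
    ∀ᵐ ω ∂P, ∀ (f : D) (j : Fin k), ξ t (sqL hSup (f.1 j)) ω = B t ω (f.1 j) (f.1 j) := by
  rw [ae_all_iff]; intro f
  rw [ae_all_iff]; intro j
  filter_upwards [hB.pairing t (f.1 j) (f.1 j) (sqL hSup (f.1 j)) (sqL_ae hSup (f.1 j))] with ω hω
  exact hω.symm

lemma ae_sum_lam (hSup : TSup) (hCont : TCont) (hKF : TKF) (hB : IsNoiseForm P ξ B)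
    (hlam : ∀ t, ∀ᵐ ω ∂P, IsEigenvalues (dsaForm 1 (B t ω)) (lam t ω)) {k : ℕ}
    {D : Set (Fin k → H11)} [Countable D] (hDf : D ⊆ frames k) (hD : DenseFr D) (t : ℝ≥0) :
    ∀ᵐ ω ∂P, ∑ j ∈ Finset.range k, lam t ω j
      = GG D (fun p => ξ t (sqL hSup (p.1.1 p.2)) ω) := by
  filter_upwards [ae_pairing hSup hB D t, hlam t, hB.symm t, hB.continuous t] with ω h1 h2 h3 h4
  obtain ⟨φ, hφ⟩ := h2
  exact sum_lam_eq hCont hKF hDf hD h3 h4 hφ (fun f j => h1 f j)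

lemma xi_aemeasurable (hξ : IsOUWhiteNoise P a ξ) (t : ℝ≥0) (F : Lp ℝ 2 hl) :
    AEMeasurable (ξ t F) P := hξ.gaussian.aemeasurable (t, F)

lemma aemeasurable_sum_lam (hSup : TSup) (hCont : TCont) (hDense : TDense) (hKF : TKF)
    (hξ : IsOUWhiteNoise P a ξ) (hB : IsNoiseForm P ξ B)
    (hlam : ∀ t, ∀ᵐ ω ∂P, IsEigenvalues (dsaForm 1 (B t ω)) (lam t ω)) (k : ℕ) (t : ℝ≥0) :
    AEMeasurable (fun ω => ∑ j ∈ Finset.range k, lam t ω j) P := by
  obtain ⟨D, hDf, hDc, hD⟩ := hDense k (frames k)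
  have : Countable D := hDc.to_subtype
  have h1 := ae_sum_lam hSup hCont hKF hB hlam hDf hD t
  have h2 : AEMeasurable (fun ω => GG D (fun p => ξ t (sqL hSup (p.1.1 p.2)) ω)) P := by
    refine (measurable_GG D).comp_aemeasurable ?_
    exact aemeasurable_pi_lambda _ fun p => xi_aemeasurable hξ t _
  exact h2.congr (h1.mono fun ω h => h.symm)

end process

/-- measurability of the eigenvalues -/
theorem tAiryMeas (hSup : TSup) (hCont : TCont) (hDense : TDense) (hKF : TKF) :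
    TAiryMeas.{u} := by
  intro Ω _ P _ a ξ B lam hξ hB hlam t j
  have h1 := aemeasurable_sum_lam hSup hCont hDense hKF hξ hB hlam (j + 1) t
  have h2 := aemeasurable_sum_lam hSup hCont hDense hKF hξ hB hlam j t
  refine (h1.sub h2).congr (Eventually.of_forall fun ω => ?_)
  simp only [Pi.sub_apply]
  rw [Finset.sum_range_succ]; ring

end Pool.Agent.W798.DBM
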