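import Pool.Agent.W798.DBM.Airy

/-!
# The reflection argument (MP_c8b564_pr)
-/

namespace Pool.Agent.W798.DBM

open MeasureTheory ProbabilityTheory Set Filter Topology
open scoped NNReal ENNReal

universe u

/-- The weight `h(x) = (1 - e^{-atx}) 1_{(1,R]}(x)`. -/
noncomputable def hw (a t R : ℝ) : ℝ → ℝ :=
  (Ioc (1:ℝ) R).indicator fun x => 1 - Real.exp (-(a * t * x))

lemma measurable_hw (a t R : ℝ) : Measurable (hw a t R) := by
  unfold hw
  exact Measurable.indicator (by fun_prop) measurableSet_Ioc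

lemma hw_nonneg {a t : ℝ} (ha : 0 ≤ a) (ht : 0 ≤ t) (R x : ℝ) : 0 ≤ hw a t R x := by
  unfold hw
  refine indicator_nonneg (fun y hy => ?_) x
  have : 0 ≤ a * t * y := by
    have : 0 ≤ y := by linarith [hy.1]
    positivity
  have := Real.exp_le_one_iff.2 (neg_nonpos.2 this)
  linarith

lemma hw_le_one (a t R x : ℝ) : hw a t R x ≤ 1 := by
  unfold hw
  by_cases hx : x ∈ Ioc (1:ℝ) R
  · rw [indicator_of_mem hx]
    have := Real.exp_pos (-(a * t * x))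
    linarith
  · rw [indicator_of_notMem hx]; norm_num

lemma hw_abs_le {a t : ℝ} (ha : 0 ≤ a) (ht : 0 ≤ t) (R x : ℝ) : |hw a t R x| ≤ 1 := by
  rw [abs_of_nonneg (hw_nonneg ha ht R x)]
  exact hw_le_one a t R x

lemma hl_Ioc_ne_top (R : ℝ) : hl (Ioc 1 R) ≠ ∞ := by
  unfold hl
  refine ne_of_lt (lt_of_le_of_lt (Measure.restrict_apply_le _ _) ?_)
  rw [Real.volume_Ioc]
  exact ENNReal.ofReal_lt_top

/-- indicator of `(1,R]` as an element of `L²` -/
noncomputable def f1 (R : ℝ) : Lp ℝ 2 hl :=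
  indicatorConstLp 2 measurableSet_Ioc (hl_Ioc_ne_top R) (1:ℝ)

lemma f1_ae (R : ℝ) : (f1 R : ℝ → ℝ) =ᵐ[hl] (Ioc 1 R).indicator (fun _ => 1) :=
  indicatorConstLp_coeFn

section process

variable {Ω : Type u} [MeasurableSpace Ω] {P : Measure Ω}
  {a : ℝ} {ξ : ℝ≥0 → Lp ℝ 2 hl → Ω → ℝ}

lemma xi_memLp (hξ : IsOUWhiteNoise P a ξ) (t : ℝ≥0) (F : Lp ℝ 2 hl) : MemLp (ξ t F) 2 P :=
  (hξ.gaussian.hasGaussianLaw_eval (t, F)).memLp_two

lemma xi_integrable_mul (hξ : IsOUWhiteNoise P a ξ) (s t : ℝ≥0) (F G : Lp ℝ 2 hl) :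
    Integrable (fun ω => ξ s F ω * ξ t G ω) P :=
  MemLp.integrable_mul (xi_memLp hξ s F) (xi_memLp hξ t G)

lemma integrable_exp_mul {r : ℝ} (hr : 0 ≤ r) (F G : Lp ℝ 2 hl) :
    IntegrableOn (fun x => Real.exp (-(r * x)) * (F x * G x)) (Ioi 0) := by
  have h1 : IntegrableOn (fun x => F x * G x) (Ioi 0) :=
    integrable_mul_of_memLp (Lp.memLp F) (Lp.memLp G)
  refine Integrable.mono h1 ?_ ?_
  · refine AEStronglyMeasurable.mul ?_ h1.1
    exact (Measurable.aestronglyMeasurable (by fun_prop))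
  · filter_upwards [ae_restrict_mem measurableSet_Ioi] with x hx
    rw [norm_mul]
    refine mul_le_of_le_one_left (norm_nonneg _) ?_
    rw [Real.norm_eq_abs, abs_of_pos (Real.exp_pos _)]
    exact Real.exp_le_one_iff.2 (neg_nonpos.2 (mul_nonneg hr (le_of_lt hx)))

lemma cov_X (hξ : IsOUWhiteNoise P a ξ) (ha : 0 ≤ a) (t : ℝ≥0) (R : ℝ) (L : Lp ℝ 2 hl) :
    ∫ ω, ξ t L ω * (ξ t (f1 R) ω - ξ 0 (f1 R) ω) ∂P = ∫ x in Ioi (0:ℝ), hw a t R x * L x := by
  have e : ∀ ω, ξ t L ω * (ξ t (f1 R) ω - ξ 0 (f1 R) ω)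
      = ξ t L ω * ξ t (f1 R) ω - ξ t L ω * ξ 0 (f1 R) ω := fun ω => by ring
  simp_rw [e]
  rw [integral_sub (xi_integrable_mul hξ t t L _) (xi_integrable_mul hξ t 0 L _), hξ.cov, hξ.cov]
  have h1 : ∀ x : ℝ, Real.exp (-(a * |(t:ℝ) - t| * x)) * (L x * f1 R x)
      = Real.exp (-(0 * x)) * (L x * f1 R x) := by intro x; simp
  have h2 : ∀ x : ℝ, Real.exp (-(a * |(t:ℝ) - (0:ℝ≥0)| * x)) * (L x * f1 R x)
      = Real.exp (-((a * t) * x)) * (L x * f1 R x) := by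
    intro x; simp
  simp_rw [h1, h2]
  refine (integral_sub (integrable_exp_mul le_rfl L (f1 R))
    (integrable_exp_mul (mul_nonneg ha t.2) L (f1 R))).symm.trans ?_
  refine integral_congr_ae ?_
  filter_upwards [f1_ae R] with x hx
  rw [hx]
  unfold hw
  by_cases hx1 : x ∈ Ioc (1:ℝ) R
  · rw [indicator_of_mem hx1, indicator_of_mem hx1]; simp; ring
  · rw [indicator_of_notMem hx1, indicator_of_notMem hx1]; simp

lemma cov_X0 (hξ : IsOUWhiteNoise P a ξ) (ha : 0 ≤ a) (t : ℝ≥0) (R : ℝ) (L : Lp ℝ 2 hl) :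
    ∫ ω, ξ 0 L ω * (ξ t (f1 R) ω - ξ 0 (f1 R) ω) ∂P = - ∫ x in Ioi (0:ℝ), hw a t R x * L x := by
  have e : ∀ ω, ξ 0 L ω * (ξ t (f1 R) ω - ξ 0 (f1 R) ω)
      = ξ 0 L ω * ξ t (f1 R) ω - ξ 0 L ω * ξ 0 (f1 R) ω := fun ω => by ring
  simp_rw [e]
  rw [integral_sub (xi_integrable_mul hξ 0 t L _) (xi_integrable_mul hξ 0 0 L _), hξ.cov, hξ.cov]
  have h1 : ∀ x : ℝ, Real.exp (-(a * |((0:ℝ≥0):ℝ) - (0:ℝ≥0)| * x)) * (L x * f1 R x)
      = Real.exp (-(0 * x)) * (L x * f1 R x) := by intro x; simp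
  have h2 : ∀ x : ℝ, Real.exp (-(a * |((0:ℝ≥0):ℝ) - t| * x)) * (L x * f1 R x)
      = Real.exp (-((a * t) * x)) * (L x * f1 R x) := by
    intro x; simp
  simp_rw [h1, h2]
  refine (integral_sub (integrable_exp_mul (mul_nonneg ha t.2) L (f1 R))
    (integrable_exp_mul le_rfl L (f1 R))).symm.trans ?_
  rw [← integral_neg]
  refine integral_congr_ae ?_
  filter_upwards [f1_ae R] with x hx
  rw [hx]
  unfold hw
  by_cases hx1 : x ∈ Ioc (1:ℝ) R
  · rw [indicator_of_mem hx1, indicator_of_mem hx1]; simp; ring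
  · rw [indicator_of_notMem hx1, indicator_of_notMem hx1]; simp

lemma hw_mul_f1 (a t R : ℝ) : ∫ x in Ioi (0:ℝ), hw a t R x * f1 R x
    = ∫ x in Ioi (0:ℝ), hw a t R x := by
  refine integral_congr_ae ?_
  filter_upwards [f1_ae R] with x hx
  rw [hx]
  unfold hw
  by_cases hx1 : x ∈ Ioc (1:ℝ) R
  · rw [indicator_of_mem hx1, indicator_of_mem hx1]; simp
  · rw [indicator_of_notMem hx1, indicator_of_notMem hx1]; simp

lemma hw_mul_sqL (hSup : TSup) (a t R : ℝ) (w : H11) :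
    ∫ x in Ioi (0:ℝ), hw a t R x * sqL hSup w x = ∫ x in Ioi (0:ℝ), hw a t R x * fn w x ^ 2 := by
  refine integral_congr_ae ?_
  filter_upwards [sqL_ae hSup w] with x hx
  rw [hx]; ring

lemma var_X (hξ : IsOUWhiteNoise P a ξ) (ha : 0 ≤ a) (t : ℝ≥0) (R : ℝ) :
    ∫ ω, (ξ t (f1 R) ω - ξ 0 (f1 R) ω) ^ 2 ∂P = 2 * ∫ x in Ioi (0:ℝ), hw a t R x := by
  have e : ∀ ω, (ξ t (f1 R) ω - ξ 0 (f1 R) ω) ^ 2
      = ξ t (f1 R) ω * (ξ t (f1 R) ω - ξ 0 (f1 R) ω)
        - ξ 0 (f1 R) ω * (ξ t (f1 R) ω - ξ 0 (f1 R) ω) := fun ω => by ring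
  simp_rw [e]
  have h1 : Integrable (fun ω => ξ t (f1 R) ω * (ξ t (f1 R) ω - ξ 0 (f1 R) ω)) P := by
    have := (xi_integrable_mul hξ t t (f1 R) (f1 R)).sub (xi_integrable_mul hξ t 0 (f1 R) (f1 R))
    refine this.congr (Eventually.of_forall fun ω => ?_)
    simp only [Pi.sub_apply]; ring
  have h2 : Integrable (fun ω => ξ 0 (f1 R) ω * (ξ t (f1 R) ω - ξ 0 (f1 R) ω)) P := by
    have := (xi_integrable_mul hξ 0 t (f1 R) (f1 R)).sub (xi_integrable_mul hξ 0 0 (f1 R) (f1 R))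
    refine this.congr (Eventually.of_forall fun ω => ?_)
    simp only [Pi.sub_apply]; ring
  rw [integral_sub h1 h2, cov_X hξ ha, cov_X0 hξ ha, hw_mul_f1]; ring

end process

lemma integral_hw_eq (a t R : ℝ) : ∫ x in Ioi (0:ℝ), hw a t R x
    = ∫ x in Ioc 1 R, (1 - Real.exp (-(a * t * x))) := by
  unfold hw
  rw [setIntegral_indicator measurableSet_Ioc]
  congr 2
  ext x; simp only [mem_inter_iff, mem_Ioi, mem_Ioc]
  constructor
  · rintro ⟨_, h⟩; exact h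
  · rintro h; exact ⟨by linarith [h.1], h⟩

lemma integral_hw_le (a t : ℝ) {R : ℝ} (hR : 1 ≤ R) : ∫ x in Ioi (0:ℝ), hw a t R x ≤ R := by
  rw [integral_hw_eq]
  have h1 : ∫ x in Ioc 1 R, (1 - Real.exp (-(a * t * x))) ≤ ∫ _x in Ioc 1 R, (1:ℝ) := by
    refine integral_mono ?_ ?_ ?_
    · refine IntegrableOn.congr_fun (f := fun x => (1 - Real.exp (-(a * t * x)))) ?_
        (fun _ _ => rfl) measurableSet_Ioc
      refine (Continuous.integrableOn_Icc (a := 1) (b := R) (by fun_prop)).mono_set Ioc_subset_Icc_self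
    · exact (integrable_const _)
    · intro x
      have := Real.exp_pos (-(a * t * x))
      simp only; linarith
  refine h1.trans ?_
  simp
  have : max (R - 1) 0 ≤ R := max_le (by linarith) (by linarith)
  first
    | exact this
    | (rw [max_eq_left (by linarith)] at this; linarith)

lemma integral_hw_pos {a t : ℝ} (hat : 0 < a * t) {R : ℝ} (hR : 1 < R) :
    0 < ∫ x in Ioi (0:ℝ), hw a t R x := by
  rw [integral_hw_eq]
  have hi : IntegrableOn (fun x => (1 - Real.exp (-(a * t * x)))) (Ioc 1 R) :=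
    (Continuous.integrableOn_Icc (a := 1) (b := R) (by fun_prop)).mono_set Ioc_subset_Icc_self
  have h1 : ∫ _x in Ioc 1 R, (1 - Real.exp (-(a * t))) ≤ ∫ x in Ioc 1 R, (1 - Real.exp (-(a * t * x))) := by
    refine setIntegral_mono_on (integrable_const _) hi measurableSet_Ioc fun x hx => ?_
    have : Real.exp (-(a * t * x)) ≤ Real.exp (-(a * t)) := by
      apply Real.exp_le_exp.2
      nlinarith [hx.1]
    linarith
  refine lt_of_lt_of_le ?_ h1
  have h2 : 0 < 1 - Real.exp (-(a * t)) := by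
    have : Real.exp (-(a * t)) < 1 := by rw [Real.exp_lt_one_iff]; linarith
    linarith
  simp
  rw [max_eq_left (by linarith)]
  exact mul_pos (by linarith) (by simpa using h2)

end Pool.Agent.W798.DBM
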