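import Pool.Agent.W798.DBM.Airy2

/-!
# The lower bound for the increments on the Airy side (MP_c8b564_pr)
-/

namespace Pool.Agent.W798.DBM

open MeasureTheory ProbabilityTheory Set Filter Topology
open scoped NNReal ENNReal

universe u

/-- deterministic comparison between the original and the reflected noise -/
lemma reflect_pointwise (hCont : TCont) (hKF : TKF) {k : ℕ} {D : Set (Fin k → H11)}
    (hDf : D ⊆ frames k) (hD : DenseFr D)
    {b b0 : H11 →ₗ[ℝ] H11 →ₗ[ℝ] ℝ} (hs : ∀ f g, b f g = b g f) (hb : DiagCont b)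
    (hs0 : ∀ f g, b0 f g = b0 g f) (hb0 : DiagCont b0)
    {lam lam0 : ℕ → ℝ} {φ φ0 : ℕ → H11} (hφ : IsEigSys (dsaForm 1 b) lam φ)
    (hφ0 : IsEigSys (dsaForm 1 b0) lam0 φ0)
    {a t R : ℝ} (ha : 0 < a) (ht : 0 < t) {w m : ℝ} (hw0 : 0 ≤ w)
    (hmass : m ≤ ∑ j ∈ Finset.range k, ∫ x in Ioc (1:ℝ) R, fn (φ j) x ^ 2)
    {z z0 z' z0' : D × Fin k → ℝ}
    (hz : ∀ (f : D) (j : Fin k), z (f, j) = b (f.1 j) (f.1 j))
    (hz0 : ∀ (f : D) (j : Fin k), z0 (f, j) = b0 (f.1 j) (f.1 j))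
    (hz' : ∀ (f : D) (j : Fin k), z' (f, j) = b (f.1 j) (f.1 j)
      - w * ∫ x in Ioi (0:ℝ), hw a t R x * fn (f.1 j) x ^ 2)
    (hz0' : ∀ (f : D) (j : Fin k), z0' (f, j) = b0 (f.1 j) (f.1 j)
      + w * ∫ x in Ioi (0:ℝ), hw a t R x * fn (f.1 j) x ^ 2) :
    2 * w * (1 - Real.exp (-(a * t))) * m ≤ (GG D z - GG D z0) - (GG D z' - GG D z0') := by
  have e1 := sum_lam_eq hCont hKF hDf hD hs hb hφ hz
  have e2 := sum_lam_eq hCont hKF hDf hD hs0 hb0 hφ0 hz0
  have hne : Nonempty D := by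
    obtain ⟨g, hg, -⟩ := hD _ (orthon_phi hφ k)
    exact ⟨⟨g 0, hg 0⟩⟩
  have hhn : ∀ u : H11, 0 ≤ ∫ x in Ioi (0:ℝ), hw a t R x * fn u x ^ 2 := fun u =>
    integral_nonneg fun x => mul_nonneg (hw_nonneg ha.le ht.le R x) (sq_nonneg _)
  have hh1 : ∀ x, |hw a t R x| ≤ 1 := hw_abs_le ha.le ht.le R
  -- time 0
  have h0 : GG D z0 ≤ GG D z0' := by
    rw [← e2]
    refine le_ciInf fun f => ?_
    refine (hKF b0 lam0 φ0 hs0 hφ0 k f.1 (hDf f.2)).trans ?_
    refine Finset.sum_le_sum fun j _ => ?_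
    rw [dsaForm_one, hz0']
    have := mul_nonneg hw0 (hhn (f.1 j))
    linarith
  -- time t
  have h1 : GG D z' ≤ ∑ j : Fin k, (energy (φ j) (φ j) + 2 * (b (φ j) (φ j)
      + (-w) * ∫ x in Ioi (0:ℝ), hw a t R x * fn (φ j) x ^ 2)) := by
    refine inf_le_frame hCont hD hb (measurable_hw a t R) hh1 (-w) ?_ ?_ (orthon_phi hφ k)
    · intro f j; rw [hz']; ring
    · refine ⟨∑ j ∈ Finset.range k, lam j - 2 * w * k, ?_⟩
      rintro _ ⟨f, rfl⟩
      have h2 := hKF b lam φ hs hφ k f.1 (hDf f.2)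
      have h3 : ∑ j, (dsaForm 1 b (f.1 j) (f.1 j) - 2 * w) ≤
          ∑ j, (energy (f.1 j) (f.1 j) + 2 * z' (f, j)) := by
        refine Finset.sum_le_sum fun j _ => ?_
        rw [dsaForm_one, hz']
        have h4 := (le_abs_self _).trans (abs_integral_h_le hh1 (f.1 j))
        rw [frames_sum_ip (hDf f.2) j] at h4
        nlinarith
      rw [Finset.sum_sub_distrib] at h3
      simp only [Finset.sum_const, Finset.card_univ, Fintype.card_fin, nsmul_eq_mul] at h3
      simp only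
      linarith
  have h2 : ∑ j : Fin k, (energy (φ j) (φ j) + 2 * (b (φ j) (φ j)
      + (-w) * ∫ x in Ioi (0:ℝ), hw a t R x * fn (φ j) x ^ 2))
      = GG D z - 2 * w * ∑ j : Fin k, ∫ x in Ioi (0:ℝ), hw a t R x * fn (φ j) x ^ 2 := by
    rw [← e1, Finset.sum_range, Finset.mul_sum, ← Finset.sum_sub_distrib]
    refine Finset.sum_congr rfl fun j _ => ?_
    have := (hφ j).2.2.1
    rw [dsaForm_one] at this
    linarith
  have h3 : (1 - Real.exp (-(a * t))) * m
      ≤ ∑ j : Fin k, ∫ x in Ioi (0:ℝ), hw a t R x * fn (φ j) x ^ 2 := by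
    have hpos : 0 ≤ 1 - Real.exp (-(a * t)) := by
      have : Real.exp (-(a * t)) ≤ 1 := Real.exp_le_one_iff.2 (neg_nonpos.2 (mul_pos ha ht).le)
      linarith
    refine (mul_le_mul_of_nonneg_left hmass hpos).trans ?_
    rw [Finset.sum_range, Finset.mul_sum]
    refine Finset.sum_le_sum fun j _ => ?_
    rw [← integral_const_mul]
    have hsub : Ioc (1:ℝ) R ⊆ Ioi (0:ℝ) := fun x hx => lt_trans zero_lt_one hx.1
    have hi := integrable_h_mul (measurable_hw a t R) hh1 (φ j)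
    refine le_trans ?_ (setIntegral_mono_set hi (Eventually.of_forall fun x =>
      mul_nonneg (hw_nonneg ha.le ht.le R x) (sq_nonneg _)) (Eventually.of_forall hsub))
    refine setIntegral_mono_on (((integrable_fn_sq (φ j)).mono_set hsub).const_mul _)
      (hi.mono_set hsub) measurableSet_Ioc fun x hx => ?_
    refine mul_le_mul_of_nonneg_right ?_ (sq_nonneg _)
    unfold hw
    rw [indicator_of_mem hx]
    have : Real.exp (-(a * t * x)) ≤ Real.exp (-(a * t)) := by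
      apply Real.exp_le_exp.2
      nlinarith [hx.1, mul_pos ha ht]
    linarith
  have h4 := mul_le_mul_of_nonneg_left h3 (by positivity : 0 ≤ 2 * w)
  rw [h2] at h1
  nlinarith

section process

variable {Ω : Type u} [MeasurableSpace Ω] {P : Measure Ω}

/-- a centered Gaussian variable exceeds its standard deviation with the universal probability -/
lemma prob_ge_sd {X : Ω → ℝ} (hX : HasGaussianLaw X P) (h0 : ∫ ω, X ω ∂P = 0) {v : ℝ}
    (hv : ∫ ω, X ω ^ 2 ∂P = v) (hv0 : 0 < v) :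
    P {ω | √v ≤ X ω} = gaussianReal 0 1 (Ici 1) := by
  have h1 := hX.map_eq_gaussianReal
  have h2 : Var[X; P] = v := by
    rw [variance_of_integral_eq_zero hX.aemeasurable h0, ← hv]
  rw [h2, h0] at h1
  have h3 : gaussianReal 0 v.toNNReal = (gaussianReal 0 1).map (√v * ·) := by
    rw [gaussianReal_map_const_mul]
    congr 1
    · simp
    · rw [mul_one]
      apply NNReal.eq
      simp only [NNReal.coe_mk]
      rw [Real.coe_toNNReal _ hv0.le, Real.sq_sqrt hv0.le]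
  have h4 : P {ω | √v ≤ X ω} = P.map X (Ici √v) := by
    rw [Measure.map_apply_of_aemeasurable hX.aemeasurable measurableSet_Ici]
    rfl
  rw [h4, h1, h3, Measure.map_apply (by fun_prop) measurableSet_Ici]
  congr 1
  ext z
  simp only [mem_preimage, mem_Ici]
  have := Real.sqrt_pos.2 hv0
  constructor
  · intro h; by_contra hz; push Not at hz; nlinarith
  · intro h; nlinarith

lemma exists_tail_le [IsProbabilityMeasure P] {C : Ω → ℝ} (hC : Measurable C) {ε : ℝ≥0∞} (hε : 0 < ε) :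
    ∃ N : ℕ, P {ω | (N:ℝ) < C ω} ≤ ε := by
  have h1 : Tendsto (fun N : ℕ => P {ω | (N:ℝ) < C ω}) atTop (𝓝 0) := by
    have h2 := tendsto_measure_iInter_atTop (μ := P) (s := fun N : ℕ => {ω | (N:ℝ) < C ω})
      (fun N => (measurableSet_lt measurable_const hC).nullMeasurableSet)
      (fun M N hMN ω hω => lt_of_le_of_lt (Nat.cast_le.2 hMN : (M:ℝ) ≤ N) hω)
      ⟨0, measure_ne_top _ _⟩
    have h3 : ⋂ N : ℕ, {ω | (N:ℝ) < C ω} = ∅ := by
      ext ω
      simp only [mem_iInter, mem_ofPred_eq, mem_empty_iff_false, iff_false, not_forall, not_lt]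
      exact exists_nat_ge (C ω)
    rw [h3, measure_empty] at h2
    exact h2
  exact ((h1.eventually (Iic_mem_nhds hε)).exists)

lemma p0_pos : 0 < gaussianReal 0 1 (Ici 1) := by
  rw [pos_iff_ne_zero]
  intro h
  have := gaussianReal_absolutelyContinuous' 0 (one_ne_zero : (1:ℝ≥0) ≠ 0) h
  simp at this

end process

/-- the mean square increment of the sum of the first `k` eigenvalues is at least `c k^{4/3}` -/
theorem tAiryBound (hSup : TSup) (hCont : TCont) (hDense : TDense) (hKF : TKF) (hMass : TMass)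
    (hNoise : TNoise.{u}) (hRef : TReflect.{u}) : TAiryBound.{u} := by
  intro Ω _ P _ a ξ B lam ha hξ hB hlam t ht
  have ht' : (0:ℝ) < t := by exact_mod_cast ht
  obtain ⟨C, hCm, hC⟩ := hNoise Ω P a ξ B hξ hB t
  set p0 : ℝ≥0∞ := gaussianReal 0 1 (Ici 1) with hp0
  have hp0pos : 0 < p0 := p0_pos
  have hp0top : p0 ≠ ∞ := measure_ne_top _ _
  obtain ⟨N, hN⟩ := exists_tail_le (P := P) hCm (ε := p0 / 2) (ENNReal.half_pos hp0pos.ne')
  obtain ⟨κ, hκ, hK⟩ := hMass N
  set q : ℝ := 1 - Real.exp (-(a * t)) with hq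
  have hqpos : 0 < q := by
    have : Real.exp (-(a * t)) < 1 := by
      rw [Real.exp_lt_one_iff]; have := mul_pos ha ht'; linarith
    rw [hq]; linarith
  have hp0r : 0 < p0.toReal := ENNReal.toReal_pos hp0pos.ne' hp0top
  refine ⟨p0.toReal * q ^ 2 / (4 * κ), by positivity, ?_⟩
  have hlarge : ∀ᶠ k : ℕ in atTop, 1 < κ * (k:ℝ) ^ (2 / 3 : ℝ) := by
    have h1 : Tendsto (fun k : ℕ => κ * (k:ℝ) ^ (2 / 3 : ℝ)) atTop atTop :=
      Tendsto.const_mul_atTop hκ ((tendsto_rpow_atTop (by norm_num)).comp tendsto_natCast_atTop_atTop)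
    exact h1.eventually_gt_atTop 1
  filter_upwards [hK, hlarge, eventually_ge_atTop 1] with k hk hR hk1
  set R : ℝ := κ * (k:ℝ) ^ (2 / 3 : ℝ) with hRdef
  set v : ℝ := 2 * ∫ x in Ioi (0:ℝ), hw a t R x with hv
  have hat : 0 < a * t := mul_pos ha ht'
  have hvpos : 0 < v := by
    have := integral_hw_pos hat hR
    rw [hv]; linarith
  have hvle : v ≤ 2 * R := by
    have := integral_hw_le a t hR.le
    rw [hv]; linarith
  set X : Ω → ℝ := fun ω => ξ t (f1 R) ω - ξ 0 (f1 R) ω with hX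
  obtain ⟨D, hDf, hDc, hD⟩ := hDense k (frames k)
  have hDcount : Countable D := hDc.to_subtype
  -- the countable Gaussian family
  let τ : Bool → ℝ≥0 := fun β => if β then t else 0
  let L : Option (D × Fin k) → Lp ℝ 2 hl := fun o => match o with
    | none => f1 R
    | some p => sqL hSup (p.1.1 p.2)
  let Y : Option (D × Fin k) × Bool → Ω → ℝ := fun i => ξ (τ i.2) (L i.1)
  let cc : Option (D × Fin k) × Bool → ℝ := fun i =>
    (if i.2 then 1 else -1) * ∫ x in Ioi (0:ℝ), hw a t R x * L i.1 x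
  have hYG : IsGaussianProcess Y P := hξ.gaussian.comp_right
    (fun i : Option (D × Fin k) × Bool => (τ i.2, L i.1))
  have hXY : ∀ ω, Y (none, true) ω - Y (none, false) ω = X ω := fun ω => by
    simp [Y, τ, L, hX]
  have href := hRef Ω P _ Y (none, false) (none, true) v cc hYG (fun i => hξ.mean _ _)
    (by simp_rw [hXY]; exact var_X hξ ha.le t R) hvpos (by
      rintro ⟨o, β⟩
      simp_rw [hXY]
      cases β
      · have := cov_X0 hξ ha.le t R (L o)
        simpa [Y, τ, cc] using this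
      · have := cov_X hξ ha.le t R (L o)
        simpa [Y, τ, cc] using this)
  simp_rw [hXY] at href
  set Y' : Ω → (Option (D × Fin k) × Bool → ℝ) := fun ω i => Y i ω - 2 * cc i / v * X ω with hY'
  set Y0 : Ω → (Option (D × Fin k) × Bool → ℝ) := fun ω i => Y i ω with hY0
  have hYm : ∀ i, AEMeasurable (Y i) P := fun i => hYG.aemeasurable i
  have hXm : AEMeasurable X P := (xi_aemeasurable hξ t _).sub (xi_aemeasurable hξ 0 _)
  have hY0m : AEMeasurable Y0 P := aemeasurable_pi_lambda _ fun i => hYm i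
  have hY'm : AEMeasurable Y' P := aemeasurable_pi_lambda _ fun i =>
    (hYm i).sub (hXm.const_mul _)
  let H : (Option (D × Fin k) × Bool → ℝ) → ℝ := fun y =>
    GG D (fun p => y (some p, true)) - GG D (fun p => y (some p, false))
  have hH : Measurable H := by
    refine Measurable.sub ((measurable_GG D).comp ?_) ((measurable_GG D).comp ?_)
    · exact measurable_pi_lambda _ fun p => measurable_pi_apply _
    · exact measurable_pi_lambda _ fun p => measurable_pi_apply _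
  have hΔ : ∀ᵐ ω ∂P, ∑ j ∈ Finset.range k, lam t ω j - ∑ j ∈ Finset.range k, lam 0 ω j
      = H (Y0 ω) := by
    filter_upwards [ae_sum_lam hSup hCont hKF hB hlam hDf hD t,
      ae_sum_lam hSup hCont hKF hB hlam hDf hD 0] with ω h1 h2
    rw [h1, h2]
    rfl
  set β0 : ℝ := 2 * q * k / √v with hβ0
  set E : Set Ω := {ω | √v ≤ X ω} \ {ω | (N:ℝ) < C ω} with hE
  have key : ∀ᵐ ω ∂P, ω ∈ E → β0 ≤ H (Y0 ω) - H (Y' ω) := by
    filter_upwards [ae_pairing hSup hB D t, ae_pairing hSup hB D 0, hlam t, hlam 0, hB.symm t,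
      hB.symm 0, hB.continuous t, hB.continuous 0, hC] with ω p1 p2 l1 l2 s1 s2 c1 c2 hCω
    rintro ⟨hXω, hNω⟩
    obtain ⟨φ, hφ⟩ := l1
    obtain ⟨φ0, hφ0⟩ := l2
    simp only [mem_ofPred_eq, not_lt] at hXω hNω
    have hXpos : 0 ≤ X ω := (Real.sqrt_nonneg _).trans hXω
    have hbound : ∀ u, |B t ω u u| ≤ 1 / 4 * energy u u + N * ip u u := fun u =>
      (hCω u).trans (by
        have := mul_le_mul_of_nonneg_right hNω (ip_nonneg u)
        linarith)
    have hm := hk (B t ω) (lam t ω) φ s1 hbound hφ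
    have hmain := reflect_pointwise hCont hKF hDf hD s1 c1 s2 c2 hφ hφ0 (R := R) ha ht'
      (w := 2 / v * X ω) (by positivity) hm
      (z := fun p => Y0 ω (some p, true)) (z0 := fun p => Y0 ω (some p, false))
      (z' := fun p => Y' ω (some p, true)) (z0' := fun p => Y' ω (some p, false))
      (fun f j => p1 f j) (fun f j => p2 f j)
      (fun f j => by
        have e1 := p1 f j
        have e2 := hw_mul_sqL hSup a t R (f.1 j)
        simp only [hY', Y, τ, L, cc, if_true, one_mul]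
        rw [e1, e2]; ring)
      (fun f j => by
        have e1 := p2 f j
        have e2 := hw_mul_sqL hSup a t R (f.1 j)
        simp only [hY', Y, τ, L, cc, Bool.false_eq_true, if_false]
        rw [e1, e2]; ring)
    refine le_trans ?_ hmain
    rw [hβ0]
    have hsv : 0 < √v := Real.sqrt_pos.2 hvpos
    have e3 : √v / v = 1 / √v := by
      rw [div_eq_div_iff hvpos.ne' hsv.ne', one_mul, Real.mul_self_sqrt hvpos.le]
    have : 2 * q * k / √v = 2 * (2 / v * √v) * q * (k / 2) := by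
      have : 2 * (2 / v * √v) * q * (k / 2) = 2 * q * k * (√v / v) := by ring
      rw [this, e3]; ring
    rw [this]
    have hkn : (0:ℝ) ≤ k := Nat.cast_nonneg k
    gcongr
  -- the probability of `E`
  have hXG : HasGaussianLaw X P := hξ.gaussian.hasGaussianLaw_fun_sub (s := (t, f1 R))
    (t := (0, f1 R))
  have hX0 : ∫ ω, X ω ∂P = 0 := by
    rw [hX, integral_sub ((xi_memLp hξ t _).integrable (by norm_num))
      ((xi_memLp hξ 0 _).integrable (by norm_num)), hξ.mean, hξ.mean, sub_zero]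
  have hPE : p0 / 2 ≤ P E := by
    have h1 : P {ω | √v ≤ X ω} = p0 := prob_ge_sd hXG hX0 (var_X hξ ha.le t R) hvpos
    have h2 : P {ω | √v ≤ X ω} - P {ω | (N:ℝ) < C ω} ≤ P E := le_measure_sdiff
    rw [h1] at h2
    refine le_trans ?_ h2
    have h3 : p0 - p0 / 2 ≤ p0 - P {ω | (N:ℝ) < C ω} := tsub_le_tsub_left hN _
    refine le_trans (le_of_eq ?_) h3
    rw [ENNReal.sub_half hp0top]
  -- lower bound of the mean square difference
  have hlow : ENNReal.ofReal (β0 ^ 2) * (p0 / 2)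
      ≤ ∫⁻ ω, ENNReal.ofReal ((H (Y0 ω) - H (Y' ω)) ^ 2) ∂P := by
    have hEm : NullMeasurableSet E P := by
      refine NullMeasurableSet.diff ?_ (measurableSet_lt measurable_const hCm).nullMeasurableSet
      exact nullMeasurableSet_le aemeasurable_const hXm
    calc ENNReal.ofReal (β0 ^ 2) * (p0 / 2) ≤ ENNReal.ofReal (β0 ^ 2) * P E := by gcongr
      _ = ∫⁻ _ in E, ENNReal.ofReal (β0 ^ 2) ∂P := by rw [setLIntegral_const]
      _ ≤ ∫⁻ ω in E, ENNReal.ofReal ((H (Y0 ω) - H (Y' ω)) ^ 2) ∂P := by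
          refine lintegral_mono_ae ?_
          filter_upwards [ae_restrict_of_ae key, ae_restrict_mem₀ hEm] with ω h1 h2
          have h3 := h1 h2
          have hβpos : 0 ≤ β0 := by positivity
          exact ENNReal.ofReal_le_ofReal (pow_le_pow_left₀ hβpos h3 2)
      _ ≤ _ := setLIntegral_le_lintegral _ _
  -- upper bound
  have hlawEq : ∫⁻ ω, ENNReal.ofReal (H (Y' ω) ^ 2) ∂P = ∫⁻ ω, ENNReal.ofReal (H (Y0 ω) ^ 2) ∂P := by
    have hHm : Measurable fun y => ENNReal.ofReal (H y ^ 2) := (hH.pow_const 2).ennreal_ofReal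
    rw [← lintegral_map' hHm.aemeasurable hY'm, ← lintegral_map' hHm.aemeasurable hY0m, href]
  have hup : ∫⁻ ω, ENNReal.ofReal ((H (Y0 ω) - H (Y' ω)) ^ 2) ∂P
      ≤ 4 * ∫⁻ ω, ENNReal.ofReal (H (Y0 ω) ^ 2) ∂P := by
    have hm0 : AEMeasurable (fun ω => ENNReal.ofReal (H (Y0 ω) ^ 2)) P :=
      ((hH.comp_aemeasurable hY0m).pow_const 2).ennreal_ofReal
    calc ∫⁻ ω, ENNReal.ofReal ((H (Y0 ω) - H (Y' ω)) ^ 2) ∂P
        ≤ ∫⁻ ω, (2 * ENNReal.ofReal (H (Y0 ω) ^ 2) + 2 * ENNReal.ofReal (H (Y' ω) ^ 2)) ∂P := by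
          refine lintegral_mono fun ω => ?_
          have e2 : (2:ℝ≥0∞) = ENNReal.ofReal 2 := by simp
          rw [e2, ← ENNReal.ofReal_mul (by norm_num), ← ENNReal.ofReal_mul (by norm_num),
            ← ENNReal.ofReal_add (by positivity) (by positivity)]
          apply ENNReal.ofReal_le_ofReal
          nlinarith [sq_nonneg (H (Y0 ω) + H (Y' ω))]
      _ = 2 * ∫⁻ ω, ENNReal.ofReal (H (Y0 ω) ^ 2) ∂P + 2 * ∫⁻ ω, ENNReal.ofReal (H (Y' ω) ^ 2) ∂P := by
          rw [lintegral_add_left' (hm0.const_mul 2), lintegral_const_mul' _ _ (by simp),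
            lintegral_const_mul' _ _ (by simp)]
      _ = 4 * ∫⁻ ω, ENNReal.ofReal (H (Y0 ω) ^ 2) ∂P := by
          rw [hlawEq]; ring
  have hfin : ENNReal.ofReal (p0.toReal * q ^ 2 / (4 * κ) * (k:ℝ) ^ (4 / 3 : ℝ)) * 4
      ≤ ENNReal.ofReal (β0 ^ 2) * (p0 / 2) := by
    have hkpos : (0:ℝ) < k := by exact_mod_cast hk1
    have e1 : p0 / 2 = ENNReal.ofReal (p0.toReal / 2) := by
      rw [ENNReal.ofReal_div_of_pos (by norm_num), ENNReal.ofReal_toReal hp0top]
      simp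
    have e2 : (4:ℝ≥0∞) = ENNReal.ofReal 4 := by simp
    rw [e1, e2, ← ENNReal.ofReal_mul (by positivity), ← ENNReal.ofReal_mul (by positivity)]
    apply ENNReal.ofReal_le_ofReal
    have e3 : β0 ^ 2 = 4 * q ^ 2 * k ^ 2 / v := by
      rw [hβ0, div_pow, Real.sq_sqrt hvpos.le]; ring
    have e4 : (k:ℝ) ^ (4 / 3 : ℝ) * (k:ℝ) ^ (2 / 3 : ℝ) = (k:ℝ) ^ 2 := by
      rw [← Real.rpow_add hkpos]; norm_num
    have e5 : 4 * q ^ 2 * (k:ℝ) ^ 2 / (2 * R) ≤ β0 ^ 2 := by
      rw [e3]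
      exact div_le_div_of_nonneg_left (by positivity) hvpos hvle
    have e6 : 4 * q ^ 2 * (k:ℝ) ^ 2 / (2 * R) = 2 * q ^ 2 / κ * (k:ℝ) ^ (4 / 3 : ℝ) := by
      have hk23 : 0 < (k:ℝ) ^ (2 / 3 : ℝ) := Real.rpow_pos_of_pos hkpos _
      rw [hRdef, ← e4]
      field_simp
      ring
    rw [e6] at e5
    calc p0.toReal * q ^ 2 / (4 * κ) * (k:ℝ) ^ (4 / 3 : ℝ) * 4
        = (2 * q ^ 2 / κ * (k:ℝ) ^ (4 / 3 : ℝ)) * (p0.toReal / 2) := by
          field_simp
      _ ≤ β0 ^ 2 * (p0.toReal / 2) := by gcongr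
  have h4 : ENNReal.ofReal (p0.toReal * q ^ 2 / (4 * κ) * (k:ℝ) ^ (4 / 3 : ℝ)) * 4
      ≤ (∫⁻ ω, ENNReal.ofReal (H (Y0 ω) ^ 2) ∂P) * 4 := by
    rw [mul_comm (∫⁻ ω, ENNReal.ofReal (H (Y0 ω) ^ 2) ∂P) 4]
    exact (hfin.trans hlow).trans hup
  have h5 := (ENNReal.mul_le_mul_iff_left (by norm_num) (by norm_num)).1 h4
  refine h5.trans (le_of_eq (lintegral_congr_ae ?_))
  filter_upwards [hΔ] with ω h
  rw [h]

end Pool.Agent.W798.DBM
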