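import Pool.Agent.W798.DBM.Defs

/-!
# Basic API for the space `H11`
-/

namespace Pool.Agent.W798.DBM

open MeasureTheory ProbabilityTheory Set Filter Topology
open scoped NNReal ENNReal

@[simp] lemma fn_add (u w : H11) : fn (u + w) = fn u + fn w := rfl
@[simp] lemma dv_add (u w : H11) : dv (u + w) = dv u + dv w := rfl
@[simp] lemma fn_sub (u w : H11) : fn (u - w) = fn u - fn w := rfl
@[simp] lemma dv_sub (u w : H11) : dv (u - w) = dv u - dv w := rfl
@[simp] lemma fn_neg (u : H11) : fn (-u) = -fn u := rfl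
@[simp] lemma dv_neg (u : H11) : dv (-u) = -dv u := rfl
@[simp] lemma fn_zero : fn (0 : H11) = 0 := rfl
@[simp] lemma dv_zero : dv (0 : H11) = 0 := rfl
@[simp] lemma fn_smul (c : ℝ) (u : H11) : fn (c • u) = c • fn u := rfl
@[simp] lemma dv_smul (c : ℝ) (u : H11) : dv (c • u) = c • dv u := rfl

/-- `fn` as a linear map -/
def fnL : H11 →ₗ[ℝ] (ℝ → ℝ) where
  toFun := fn
  map_add' _ _ := rfl
  map_smul' _ _ := rfl

/-- `dv` as a linear map -/
def dvL : H11 →ₗ[ℝ] (ℝ → ℝ) where
  toFun := dv
  map_add' _ _ := rfl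
  map_smul' _ _ := rfl

lemma fn_sum {ι : Type*} (s : Finset ι) (f : ι → H11) : fn (∑ i ∈ s, f i) = ∑ i ∈ s, fn (f i) :=
  map_sum fnL f s
lemma dv_sum {ι : Type*} (s : Finset ι) (f : ι → H11) : dv (∑ i ∈ s, f i) = ∑ i ∈ s, dv (f i) :=
  map_sum dvL f s

lemma memLp_fn (u : H11) : MemLp (fn u) 2 hl := u.2.1
lemma memLp_dv (u : H11) : MemLp (dv u) 2 hl := u.2.2.1
lemma memLp_xfn (u : H11) : MemLp (fun x => x * fn u x) 2 hl := u.2.2.2.1
lemma fn_eq (u : H11) {x : ℝ} (hx : 0 ≤ x) : fn u x = ∫ y in (0:ℝ)..x, dv u y := u.2.2.2.2 x hx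

@[simp] lemma fn_at_zero (u : H11) : fn u 0 = 0 := by rw [fn_eq u le_rfl]; simp

lemma integrable_mul_of_memLp {μ : Measure ℝ} {f g : ℝ → ℝ} (hf : MemLp f 2 μ) (hg : MemLp g 2 μ) :
    Integrable (fun x => f x * g x) μ := by
  have := MemLp.integrable_mul hf hg
  exact this

lemma integrable_fn_mul (u w : H11) : IntegrableOn (fun x => fn u x * fn w x) (Ioi 0) :=
  integrable_mul_of_memLp (memLp_fn u) (memLp_fn w)

lemma integrable_dv_mul (u w : H11) : IntegrableOn (fun x => dv u x * dv w x) (Ioi 0) :=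
  integrable_mul_of_memLp (memLp_dv u) (memLp_dv w)

lemma integrable_fn_dv (u w : H11) : IntegrableOn (fun x => fn u x * dv w x) (Ioi 0) :=
  integrable_mul_of_memLp (memLp_fn u) (memLp_dv w)

lemma integrable_x_mul (u w : H11) : IntegrableOn (fun x => x * fn u x * fn w x) (Ioi 0) :=
  integrable_mul_of_memLp (memLp_xfn u) (memLp_fn w)

lemma integrable_x2_mul (u w : H11) : IntegrableOn (fun x => (x * fn u x) * (x * fn w x)) (Ioi 0) :=
  integrable_mul_of_memLp (memLp_xfn u) (memLp_xfn w)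

lemma integrable_fn_sq (u : H11) : IntegrableOn (fun x => fn u x ^ 2) (Ioi 0) := by
  have := integrable_fn_mul u u
  simpa only [sq] using this

lemma integrable_dv_sq (u : H11) : IntegrableOn (fun x => dv u x ^ 2) (Ioi 0) := by
  have := integrable_dv_mul u u
  simpa only [sq] using this

lemma integrable_x_sq (u : H11) : IntegrableOn (fun x => x * fn u x ^ 2) (Ioi 0) := by
  have := integrable_x_mul u u
  refine this.congr (Eventually.of_forall fun x => ?_)
  simp only; ring

lemma integrable_x2_sq (u : H11) : IntegrableOn (fun x => x ^ 2 * fn u x ^ 2) (Ioi 0) := by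
  have := integrable_x2_mul u u
  refine this.congr (Eventually.of_forall fun x => ?_)
  simp only; ring

lemma ip_self (u : H11) : ip u u = ∫ x in Ioi (0:ℝ), fn u x ^ 2 := by
  unfold ip; simp only [sq]

lemma energy_eq (u w : H11) : energy u w = (∫ x in Ioi (0:ℝ), dv u x * dv w x)
    + ∫ x in Ioi (0:ℝ), x * fn u x * fn w x := by
  unfold energy
  exact integral_add (integrable_dv_mul u w) (integrable_x_mul u w)

lemma energy_self (u : H11) : energy u u = (∫ x in Ioi (0:ℝ), dv u x ^ 2)
    + ∫ x in Ioi (0:ℝ), x * fn u x ^ 2 := by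
  rw [energy_eq]
  congr 1
  · simp only [sq]
  · refine integral_congr_ae (Eventually.of_forall fun x => ?_)
    simp only; ring

lemma hnsq_eq (u : H11) : hnsq u = (∫ x in Ioi (0:ℝ), dv u x ^ 2)
    + ((∫ x in Ioi (0:ℝ), fn u x ^ 2) + ∫ x in Ioi (0:ℝ), x ^ 2 * fn u x ^ 2) := by
  unfold hnsq
  have h : IntegrableOn (fun x => fn u x ^ 2 + x ^ 2 * fn u x ^ 2) (Ioi 0) :=
    (integrable_fn_sq u).add (integrable_x2_sq u)
  rw [← integral_add (integrable_fn_sq u) (integrable_x2_sq u), ← integral_add (integrable_dv_sq u) h]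
  refine integral_congr_ae (Eventually.of_forall fun x => ?_)
  simp only; ring

lemma integral_dv_sq_nonneg (u : H11) : 0 ≤ ∫ x in Ioi (0:ℝ), dv u x ^ 2 :=
  integral_nonneg fun _ => sq_nonneg _
lemma integral_fn_sq_nonneg (u : H11) : 0 ≤ ∫ x in Ioi (0:ℝ), fn u x ^ 2 :=
  integral_nonneg fun _ => sq_nonneg _
lemma integral_x_sq_nonneg (u : H11) : 0 ≤ ∫ x in Ioi (0:ℝ), x * fn u x ^ 2 :=
  setIntegral_nonneg measurableSet_Ioi fun _ hx => mul_nonneg (le_of_lt hx) (sq_nonneg _)
lemma integral_x2_sq_nonneg (u : H11) : 0 ≤ ∫ x in Ioi (0:ℝ), x ^ 2 * fn u x ^ 2 :=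
  integral_nonneg fun _ => mul_nonneg (sq_nonneg _) (sq_nonneg _)

lemma hnsq_nonneg (u : H11) : 0 ≤ hnsq u := by
  rw [hnsq_eq]
  have := integral_dv_sq_nonneg u; have := integral_fn_sq_nonneg u
  have := integral_x2_sq_nonneg u; linarith

lemma ip_nonneg (u : H11) : 0 ≤ ip u u := by rw [ip_self]; exact integral_fn_sq_nonneg u
lemma energy_nonneg (u : H11) : 0 ≤ energy u u := by
  rw [energy_self]
  have := integral_dv_sq_nonneg u; have := integral_x_sq_nonneg u; linarith

lemma ip_comm (u w : H11) : ip u w = ip w u := by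
  unfold ip; simp only [mul_comm]
lemma energy_comm (u w : H11) : energy u w = energy w u := by
  unfold energy
  refine integral_congr_ae (Eventually.of_forall fun x => ?_)
  simp only; ring

lemma ip_add_left (u v w : H11) : ip (u + v) w = ip u w + ip v w := by
  unfold ip
  rw [← integral_add (integrable_fn_mul u w) (integrable_fn_mul v w)]
  refine integral_congr_ae (Eventually.of_forall fun x => ?_)
  simp only [fn_add, Pi.add_apply]; ring
lemma ip_smul_left (c : ℝ) (u w : H11) : ip (c • u) w = c * ip u w := by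
  unfold ip
  rw [← integral_const_mul]
  refine integral_congr_ae (Eventually.of_forall fun x => ?_)
  simp only [fn_smul, Pi.smul_apply, smul_eq_mul]; ring
lemma energy_add_left (u v w : H11) : energy (u + v) w = energy u w + energy v w := by
  unfold energy
  have h1 : IntegrableOn (fun x => dv u x * dv w x + x * fn u x * fn w x) (Ioi 0) :=
    (integrable_dv_mul u w).add (integrable_x_mul u w)
  have h2 : IntegrableOn (fun x => dv v x * dv w x + x * fn v x * fn w x) (Ioi 0) :=
    (integrable_dv_mul v w).add (integrable_x_mul v w)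
  rw [← integral_add h1 h2]
  refine integral_congr_ae (Eventually.of_forall fun x => ?_)
  simp only [fn_add, dv_add, Pi.add_apply]; ring
lemma energy_smul_left (c : ℝ) (u w : H11) : energy (c • u) w = c * energy u w := by
  unfold energy
  rw [← integral_const_mul]
  refine integral_congr_ae (Eventually.of_forall fun x => ?_)
  simp only [fn_smul, dv_smul, Pi.smul_apply, smul_eq_mul]; ring

/-- the inner product as a bilinear map -/
noncomputable def ipL : H11 →ₗ[ℝ] H11 →ₗ[ℝ] ℝ :=
  LinearMap.mk₂ ℝ ip ip_add_left ip_smul_left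
    (fun u v w => by rw [ip_comm, ip_add_left, ip_comm v, ip_comm w])
    (fun c u w => by rw [ip_comm, ip_smul_left, ip_comm w, smul_eq_mul])

/-- the energy as a bilinear map -/
noncomputable def enL : H11 →ₗ[ℝ] H11 →ₗ[ℝ] ℝ :=
  LinearMap.mk₂ ℝ energy energy_add_left energy_smul_left
    (fun u v w => by rw [energy_comm, energy_add_left, energy_comm v, energy_comm w])
    (fun c u w => by rw [energy_comm, energy_smul_left, energy_comm w, smul_eq_mul])

@[simp] lemma ipL_apply (u w : H11) : ipL u w = ip u w := rfl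
@[simp] lemma enL_apply (u w : H11) : enL u w = energy u w := rfl

/-- the form of the operator as a bilinear map -/
noncomputable def dsaL (β : ℝ) (b : H11 →ₗ[ℝ] H11 →ₗ[ℝ] ℝ) : H11 →ₗ[ℝ] H11 →ₗ[ℝ] ℝ :=
  enL + (2 / √β) • b

@[simp] lemma dsaL_apply (β : ℝ) (b : H11 →ₗ[ℝ] H11 →ₗ[ℝ] ℝ) (u w : H11) :
    dsaL β b u w = dsaForm β b u w := rfl

lemma continuousOn_fn (u : H11) : ContinuousOn (fn u) (Ici 0) := by
  have h : ∀ b : ℝ, 0 ≤ b → ContinuousOn (fn u) (Icc 0 b) := by
    intro b hb
    have h1 : IntegrableOn (dv u) (Icc 0 b) volume := by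
      have := intervalIntegrable_of_memLp_hl (memLp_dv u) (le_refl (0:ℝ)) hb
      rw [intervalIntegrable_iff_integrableOn_Icc_of_le hb] at this
      exact this
    have h2 := intervalIntegral.continuousOn_primitive_interval (a := 0) (b := b)
      (f := dv u) (μ := volume) (by rwa [uIcc_of_le hb])
    rw [uIcc_of_le hb] at h2
    refine h2.congr fun x hx => fn_eq u hx.1
  intro x hx
  have := h (x + 1) (by linarith [mem_Ici.1 hx]) x ⟨hx, by linarith⟩
  refine this.mono_of_mem_nhdsWithin ?_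
  have : Iio (x + 1) ∈ 𝓝 x := Iio_mem_nhds (by linarith)
  filter_upwards [mem_nhdsWithin_of_mem_nhds this, self_mem_nhdsWithin] with y hy1 hy2
  exact ⟨hy2, le_of_lt hy1⟩

/-- orthonormal frames -/
def Orthon {k : ℕ} (f : Fin k → H11) : Prop := ∀ i j, ip (f i) (f j) = if i = j then 1 else 0

end Pool.Agent.W798.DBM
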