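import Mathlib

/-!
# Definitions for the edge limit problem of Dyson Brownian motion (MP_c8b564_pr)

* `hl` : Lebesgue measure on the half line `(0,∞)`.
* `H11` : the space `H^{1,1}_0`, as pairs `(u,u')`.
* `IsOUWhiteNoise` : Ornstein-Uhlenbeck space-time white noise (as a Gaussian process indexed by time
  and by `L²(0,∞)`).
* `IsNoiseForm` : the quadratic form `(f,g) ↦ ⟨ξ(t), f g⟩` on `H^{1,1}_0`.
* `IsEigenvalues` : variational eigenvalues of a symmetric form.
* `IsStationaryGOE` : the stationary GOE matrix process.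
-/

namespace Pool.Agent.W798.DBM

open MeasureTheory ProbabilityTheory Set Filter Topology
open scoped NNReal ENNReal

/-- Lebesgue measure on the half line `(0,∞)`. -/
noncomputable def hl : Measure ℝ := volume.restrict (Ioi 0)

instance : SigmaFinite hl := by unfold hl; infer_instance

lemma intervalIntegrable_of_memLp_hl {v : ℝ → ℝ} (hv : MemLp v 2 hl) {a b : ℝ} (ha : 0 ≤ a)
    (hb : 0 ≤ b) : IntervalIntegrable v volume a b := by
  wlog hab : a ≤ b generalizing a b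
  · exact (this hb ha (le_of_not_ge hab)).symm
  rw [intervalIntegrable_iff_integrableOn_Ioc_of_le hab]
  have h1 : MemLp v 2 (volume.restrict (Ioc a b)) := by
    refine hv.mono_measure ?_
    unfold hl
    exact Measure.restrict_mono (fun x hx => lt_of_le_of_lt ha hx.1) le_rfl
  exact h1.integrable (by norm_num)

/-- The space `H^{1,1}_0 = {u ∈ L²(0,∞) : u', x u ∈ L²(0,∞), u(0) = 0}`.  An element is a pair
`(u, u')`, where `u` is the integral of `u'` from `0` on `[0,∞)` (so `u` is locally absolutely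
continuous with derivative `u'` and `u(0)=0`).  Values on the negative half line are irrelevant. -/
def H11 : Submodule ℝ ((ℝ → ℝ) × (ℝ → ℝ)) where
  carrier := {p | MemLp p.1 2 hl ∧ MemLp p.2 2 hl ∧ MemLp (fun x => x * p.1 x) 2 hl ∧
    ∀ x : ℝ, 0 ≤ x → p.1 x = ∫ y in (0:ℝ)..x, p.2 y}
  zero_mem' := by
    refine ⟨MemLp.zero, MemLp.zero, ?_, ?_⟩
    · simp
    · intro x _; simp
  add_mem' := by
    rintro p q ⟨h1, h2, h3, h4⟩ ⟨g1, g2, g3, g4⟩
    refine ⟨h1.add g1, h2.add g2, ?_, ?_⟩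
    · have := h3.add g3
      refine this.ae_eq (Eventually.of_forall fun x => ?_)
      simp only [Pi.add_apply, Prod.fst_add]
      ring
    · intro x hx
      have e1 := intervalIntegrable_of_memLp_hl h2 le_rfl hx
      have e2 := intervalIntegrable_of_memLp_hl g2 le_rfl hx
      simp only [Prod.fst_add, Prod.snd_add, Pi.add_apply]
      rw [intervalIntegral.integral_add e1 e2, h4 x hx, g4 x hx]
  smul_mem' := by
    rintro c p ⟨h1, h2, h3, h4⟩
    refine ⟨h1.const_smul c, h2.const_smul c, ?_, ?_⟩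
    · have := h3.const_smul c
      refine this.ae_eq (Eventually.of_forall fun x => ?_)
      simp only [Pi.smul_apply, Prod.smul_fst, smul_eq_mul]
      ring
    · intro x hx
      simp only [Prod.smul_fst, Prod.smul_snd, Pi.smul_apply, smul_eq_mul]
      rw [intervalIntegral.integral_const_mul, h4 x hx]

/-- the function `u` of an element of `H^{1,1}_0` -/
def fn (u : H11) : ℝ → ℝ := u.1.1

/-- the derivative `u'` of an element of `H^{1,1}_0` -/
def dv (u : H11) : ℝ → ℝ := u.1.2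

/-- the `L²(0,∞)` inner product on `H^{1,1}_0` -/
noncomputable def ip (u w : H11) : ℝ := ∫ x in Ioi (0:ℝ), fn u x * fn w x

/-- the form `∫ (u'w' + x u w)` of the (deterministic) Airy operator -/
noncomputable def energy (u w : H11) : ℝ := ∫ x in Ioi (0:ℝ), (dv u x * dv w x + x * fn u x * fn w x)

/-- the square of the norm of `H^{1,1}_0` -/
noncomputable def hnsq (u : H11) : ℝ := ∫ x in Ioi (0:ℝ), (dv u x ^ 2 + (1 + x ^ 2) * fn u x ^ 2)

/-- Ornstein-Uhlenbeck space-time white noise with parameter `a`: a centered Gaussian process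
indexed by time and by `L²(0,∞)` with covariance `∫₀^∞ e^{-a|t-s|x} f(x) g(x) dx`. -/
structure IsOUWhiteNoise {Ω : Type*} [MeasurableSpace Ω] (P : Measure Ω) (a : ℝ)
    (ξ : ℝ≥0 → Lp ℝ 2 hl → Ω → ℝ) : Prop where
  gaussian : IsGaussianProcess (fun (p : ℝ≥0 × Lp ℝ 2 hl) => ξ p.1 p.2) P
  mean : ∀ t f, ∫ ω, ξ t f ω ∂P = 0
  cov : ∀ s t f g, ∫ ω, ξ s f ω * ξ t g ω ∂P
    = ∫ x in Ioi (0:ℝ), Real.exp (-(a * |(s:ℝ) - t| * x)) * (f x * g x)

/-- `B t ω f g` is the noise form `⟨ξ(t), f g⟩` on `H^{1,1}_0`: for every pair `f, g` it is almost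
surely the pairing of the noise with the function `f g ∈ L²(0,∞)`, and almost surely it is
a symmetric bilinear form which is continuous for the norm of `H^{1,1}_0`. -/
structure IsNoiseForm {Ω : Type*} [MeasurableSpace Ω] (P : Measure Ω)
    (ξ : ℝ≥0 → Lp ℝ 2 hl → Ω → ℝ) (B : ℝ≥0 → Ω → H11 →ₗ[ℝ] H11 →ₗ[ℝ] ℝ) : Prop where
  pairing : ∀ (t : ℝ≥0) (f g : H11) (F : Lp ℝ 2 hl), (F : ℝ → ℝ) =ᵐ[hl] (fun x => fn f x * fn g x) →
    ∀ᵐ ω ∂P, B t ω f g = ξ t F ω
  symm : ∀ t : ℝ≥0, ∀ᵐ ω ∂P, ∀ f g, B t ω f g = B t ω g f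
  continuous : ∀ t : ℝ≥0, ∀ᵐ ω ∂P, ∀ (f : ℕ → H11) (g : H11),
    Tendsto (fun n => hnsq (f n - g)) atTop (𝓝 0) →
    Tendsto (fun n => B t ω (f n) (f n)) atTop (𝓝 (B t ω g g))

/-- The form of the dynamical stochastic Airy operator
`-d²/dx² + x + (2/√β) ξ` on `H^{1,1}_0`, `b` being the noise form. -/
noncomputable def dsaForm (β : ℝ) (b : H11 →ₗ[ℝ] H11 →ₗ[ℝ] ℝ) (f g : H11) : ℝ :=
  energy f g + 2 / √β * b f g

/-- Variational definition of the eigenvalues `lam 0 ≤ lam 1 ≤ ...`: there are minimisers `φ j` of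
the form `Q` among the unit vectors orthogonal to `φ 0, …, φ (j-1)`, and `lam j` is the minimum. -/
def IsEigenvalues (Q : H11 → H11 → ℝ) (lam : ℕ → ℝ) : Prop :=
  ∃ φ : ℕ → H11, ∀ j, ip (φ j) (φ j) = 1 ∧ (∀ i < j, ip (φ i) (φ j) = 0) ∧ Q (φ j) (φ j) = lam j ∧
    ∀ f : H11, ip f f = 1 → (∀ i < j, ip (φ i) f = 0) → lam j ≤ Q f f

/-- The stationary GOE matrix process, i.e. the stationary solution of `dm = -m dt + √2 dB_GOE`:
symmetric matrices with jointly Gaussian centered entries and covariance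
`E m_ij(s) m_kl(s') = e^{-|s-s'|} (δ_ik δ_jl + δ_il δ_jk)`. -/
structure IsStationaryGOE {Ω : Type*} [MeasurableSpace Ω] (P : Measure Ω) (n : ℕ)
    (m : ℝ≥0 → Ω → Matrix (Fin n) (Fin n) ℝ) : Prop where
  symm : ∀ s ω, (m s ω).IsHermitian
  gaussian : IsGaussianProcess (fun (p : ℝ≥0 × Fin n × Fin n) ω => m p.1 ω p.2.1 p.2.2) P
  mean : ∀ s i j, ∫ ω, m s ω i j ∂P = 0
  cov : ∀ s s' i j k l, ∫ ω, m s ω i j * m s' ω k l ∂P = Real.exp (-|(s:ℝ) - s'|) *
    ((if i = k ∧ j = l then 1 else 0) + (if i = l ∧ j = k then 1 else 0))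

/-- The `j`-th largest eigenvalue (`j = 0, 1, …`) of a real symmetric matrix. -/
noncomputable def eig {n : ℕ} (A : Matrix (Fin n) (Fin n) ℝ) (j : ℕ) : ℝ :=
  if h : A.IsHermitian ∧ j < n then h.1.eigenvalues₀ ⟨j, by simpa using h.2⟩ else 0

/-- The rescaled top `k` eigenvalues `n^{1/6} (2√n - λ_j)`, `j = 1, …, k`. -/
noncomputable def edgeVec (n k : ℕ) (A : Matrix (Fin n) (Fin n) ℝ) : Fin k → ℝ :=
  fun j => (n:ℝ) ^ (1 / 6 : ℝ) * (2 * √(n:ℝ) - eig A j)

/-- sum of the `k` largest eigenvalues -/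
noncomputable def topSum {n : ℕ} (k : ℕ) (A : Matrix (Fin n) (Fin n) ℝ) : ℝ :=
  ∑ j ∈ Finset.range k, eig A j

end Pool.Agent.W798.DBM
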