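import Pool.Agent.W798.DBM.Airy3

/-!
# The contradiction (MP_c8b564_pr)
-/

namespace Pool.Agent.W798.DBM

open MeasureTheory ProbabilityTheory Set Filter Topology
open scoped NNReal ENNReal BoundedContinuousFunction

universe u v

/-- the truncated squared difference of the sums as a bounded continuous function -/
noncomputable def testF (k : ℕ) (M : ℝ≥0) : ((Fin k → ℝ) × (Fin k → ℝ)) →ᵇ ℝ≥0 :=
  BoundedContinuousFunction.mkOfBound
    ⟨fun p => min (Real.toNNReal ((∑ j, p.2 j - ∑ j, p.1 j) ^ 2)) M, by fun_prop⟩ M (by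
      intro x y
      rw [NNReal.dist_eq, abs_le]
      have h1 : ((min (Real.toNNReal ((∑ j, x.2 j - ∑ j, x.1 j) ^ 2)) M : ℝ≥0) : ℝ) ≤ M :=
        NNReal.coe_le_coe.2 (min_le_right _ _)
      have h2 : ((min (Real.toNNReal ((∑ j, y.2 j - ∑ j, y.1 j) ^ 2)) M : ℝ≥0) : ℝ) ≤ M :=
        NNReal.coe_le_coe.2 (min_le_right _ _)
      have h3 : (0:ℝ) ≤ ((min (Real.toNNReal ((∑ j, x.2 j - ∑ j, x.1 j) ^ 2)) M : ℝ≥0) : ℝ) :=
        NNReal.coe_nonneg _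
      have h4 : (0:ℝ) ≤ ((min (Real.toNNReal ((∑ j, y.2 j - ∑ j, y.1 j) ^ 2)) M : ℝ≥0) : ℝ) :=
        NNReal.coe_nonneg _
      constructor
      · show -(M:ℝ) ≤ _
        simp only [ContinuousMap.coe_mk]
        linarith
      · simp only [ContinuousMap.coe_mk]
        linarith)

lemma testF_apply (k : ℕ) (M : ℝ≥0) (p : (Fin k → ℝ) × (Fin k → ℝ)) :
    testF k M p = min (Real.toNNReal ((∑ j, p.2 j - ∑ j, p.1 j) ^ 2)) M := rfl

/-- weak limits inherit bounds on the mean square -/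
lemma lintegral_limit_le {ι : Type*} {l : Filter ι} [l.NeBot] {Ω : ι → Type u}
    [∀ i, MeasurableSpace (Ω i)] {P : ∀ i, Measure (Ω i)} [∀ i, IsProbabilityMeasure (P i)]
    {Ω' : Type v} [MeasurableSpace Ω'] {P' : Measure Ω'} [IsProbabilityMeasure P'] {k : ℕ}
    {X : ∀ i, Ω i → (Fin k → ℝ) × (Fin k → ℝ)} {Z : Ω' → (Fin k → ℝ) × (Fin k → ℝ)}
    (h : TendstoInDistribution X l Z P P') {K : ℝ≥0∞}
    (hX : ∀ᶠ i in l, ∫⁻ ω, ENNReal.ofReal ((∑ j, (X i ω).2 j - ∑ j, (X i ω).1 j) ^ 2) ∂(P i) ≤ K) :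
    ∫⁻ ω, ENNReal.ofReal ((∑ j, (Z ω).2 j - ∑ j, (Z ω).1 j) ^ 2) ∂P' ≤ K := by
  have hF : Measurable fun p : (Fin k → ℝ) × (Fin k → ℝ) =>
      Real.toNNReal ((∑ j, p.2 j - ∑ j, p.1 j) ^ 2) := by fun_prop
  have h1 : ∀ M : ℕ, ∫⁻ ω, (testF k M (Z ω) : ℝ≥0∞) ∂P' ≤ K := by
    intro M
    have h2 := (ProbabilityMeasure.tendsto_iff_forall_lintegral_tendsto.1 h.tendsto) (testF k M)
    simp only [ProbabilityMeasure.coe_mk] at h2
    have hm : Measurable fun p => (testF k M p : ℝ≥0∞) := (testF k M).continuous.measurable.coe_nnreal_ennreal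
    rw [lintegral_map' hm.aemeasurable h.aemeasurable_limit] at h2
    refine le_of_tendsto h2 ?_
    filter_upwards [hX] with i hi
    rw [lintegral_map' hm.aemeasurable (h.forall_aemeasurable i)]
    refine le_trans (lintegral_mono fun ω => ?_) hi
    simp only [testF_apply, ENNReal.ofReal]
    exact ENNReal.coe_le_coe.2 (min_le_left _ _)
  have h3 : ∫⁻ ω, ENNReal.ofReal ((∑ j, (Z ω).2 j - ∑ j, (Z ω).1 j) ^ 2) ∂P'
      = ∫⁻ ω, ⨆ M : ℕ, (testF k M (Z ω) : ℝ≥0∞) ∂P' := by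
    refine lintegral_congr fun ω => ?_
    simp only [testF_apply, ENNReal.ofReal]
    apply le_antisymm
    · obtain ⟨M, hM⟩ := exists_nat_ge (Real.toNNReal ((∑ j, (Z ω).2 j - ∑ j, (Z ω).1 j) ^ 2))
      refine le_trans ?_ (le_iSup _ M)
      rw [min_eq_left hM]
    · exact iSup_le fun M => ENNReal.coe_le_coe.2 (min_le_left _ _)
  rw [h3, lintegral_iSup']
  · exact iSup_le h1
  · intro M
    have hm : Measurable fun p => (testF k M p : ℝ≥0∞) := (testF k M).continuous.measurable.coe_nnreal_ennreal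
    exact hm.comp_aemeasurable h.aemeasurable_limit
  · refine Eventually.of_forall fun ω M N hMN => ?_
    simp only [testF_apply]
    exact ENNReal.coe_le_coe.2 (min_le_min_left _ (by exact_mod_cast hMN))

/-- the two-time vector of rescaled top eigenvalues -/
noncomputable def edgePair (n k : ℕ) {Ω : Type u} (m : ℝ≥0 → Ω → Matrix (Fin n) (Fin n) ℝ)
    (t : ℝ≥0) (ω : Ω) : (Fin k → ℝ) × (Fin k → ℝ) :=
  (edgeVec n k (m 0 ω), edgeVec n k (m (t / (2 * (n:ℝ≥0) ^ (1 / 3 : ℝ))) ω))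

/-- the two-time vector of the lowest eigenvalues of the dynamical stochastic Airy operator -/
def airyPair (k : ℕ) {Ω : Type u} (lam : ℝ≥0 → Ω → ℕ → ℝ) (t : ℝ≥0) (ω : Ω) :
    (Fin k → ℝ) × (Fin k → ℝ) :=
  (fun j => lam 0 ω j, fun j => lam t ω j)

lemma aemeasurable_edgeVec (hGM : TGOEMeas.{u}) {Ω : Type u} [MeasurableSpace Ω] {P : Measure Ω}
    [IsProbabilityMeasure P] {n : ℕ} {m : ℝ≥0 → Ω → Matrix (Fin n) (Fin n) ℝ}
    (hm : IsStationaryGOE P n m) (k : ℕ) (s : ℝ≥0) :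
    AEMeasurable (fun ω => edgeVec n k (m s ω)) P := by
  refine aemeasurable_pi_lambda _ fun j => ?_
  unfold edgeVec
  exact (aemeasurable_const.sub (hGM Ω P n m hm s j)).const_mul _

lemma sum_edgeVec (n k : ℕ) (A : Matrix (Fin n) (Fin n) ℝ) : ∑ j, edgeVec n k A j
    = (n:ℝ) ^ (1 / 6 : ℝ) * (k * (2 * √(n:ℝ)) - topSum k A) := by
  unfold edgeVec topSum
  rw [Finset.sum_range, ← Finset.mul_sum, Finset.sum_sub_distrib]
  simp

lemma edge_bound (hGB : TGOEBound.{u}) {Ω : Type u} [MeasurableSpace Ω] {P : Measure Ω}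
    [IsProbabilityMeasure P] {n : ℕ} {m : ℝ≥0 → Ω → Matrix (Fin n) (Fin n) ℝ}
    (hm : IsStationaryGOE P n m) {k : ℕ} (hkn : k ≤ n) (hn : 0 < n) (t : ℝ≥0) :
    ∫⁻ ω, ENNReal.ofReal ((∑ j, (edgePair n k m t ω).2 j - ∑ j, (edgePair n k m t ω).1 j) ^ 2) ∂P
      ≤ ENNReal.ofReal (Real.pi ^ 2 * k * t) := by
  set s : ℝ≥0 := t / (2 * (n:ℝ≥0) ^ (1 / 3 : ℝ)) with hs
  have hnpos : (0:ℝ) < n := by exact_mod_cast hn
  have h1 := hGB Ω P n m hm k hkn s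
  have h2 : ∀ ω, (∑ j, (edgePair n k m t ω).2 j - ∑ j, (edgePair n k m t ω).1 j) ^ 2
      = (n:ℝ) ^ (1 / 3 : ℝ) * (topSum k (m s ω) - topSum k (m 0 ω)) ^ 2 := by
    intro ω
    simp only [edgePair]
    rw [sum_edgeVec, sum_edgeVec]
    have : (n:ℝ) ^ (1 / 3 : ℝ) = ((n:ℝ) ^ (1 / 6 : ℝ)) ^ 2 := by
      rw [← Real.rpow_natCast, ← Real.rpow_mul hnpos.le]; norm_num
    rw [this]
    ring
  simp_rw [h2]
  have h3 : (0:ℝ) < (n:ℝ) ^ (1 / 3 : ℝ) := Real.rpow_pos_of_pos hnpos _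
  simp_rw [ENNReal.ofReal_mul h3.le]
  rw [lintegral_const_mul' _ _ ENNReal.ofReal_ne_top]
  calc ENNReal.ofReal ((n:ℝ) ^ (1 / 3 : ℝ))
        * ∫⁻ ω, ENNReal.ofReal ((topSum k (m s ω) - topSum k (m 0 ω)) ^ 2) ∂P
      ≤ ENNReal.ofReal ((n:ℝ) ^ (1 / 3 : ℝ)) * ENNReal.ofReal (2 * Real.pi ^ 2 * k * s) := by
        gcongr
    _ = ENNReal.ofReal ((n:ℝ) ^ (1 / 3 : ℝ) * (2 * Real.pi ^ 2 * k * s)) := by
        rw [ENNReal.ofReal_mul h3.le]
    _ = ENNReal.ofReal (Real.pi ^ 2 * k * t) := by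
        congr 1
        rw [hs]
        push_cast
        field_simp

/-- The main theorem, conditional on the parts. -/
theorem main (hGM : TGOEMeas.{u}) (hGB : TGOEBound.{u}) (hAM : TAiryMeas.{v})
    (hAB : TAiryBound.{v})
    {Ω' : Type v} [MeasurableSpace Ω'] {P' : Measure Ω'} [IsProbabilityMeasure P']
    {a : ℝ} (ha : 0 < a) {ξ : ℝ≥0 → Lp ℝ 2 hl → Ω' → ℝ} (hξ : IsOUWhiteNoise P' a ξ)
    {B : ℝ≥0 → Ω' → H11 →ₗ[ℝ] H11 →ₗ[ℝ] ℝ} (hB : IsNoiseForm P' ξ B)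
    {lam : ℝ≥0 → Ω' → ℕ → ℝ}
    (hlam : ∀ t, ∀ᵐ ω ∂P', IsEigenvalues (dsaForm 1 (B t ω)) (lam t ω))
    {t : ℝ≥0} (ht : 0 < t) :
    ∀ᶠ k : ℕ in atTop, ∀ (Ω : ℕ → Type u) [∀ n, MeasurableSpace (Ω n)] (P : ∀ n, Measure (Ω n))
      [∀ n, IsProbabilityMeasure (P n)] (m : ∀ n, ℝ≥0 → Ω n → Matrix (Fin n) (Fin n) ℝ),
      (∀ n, IsStationaryGOE (P n) n (m n)) →
      (∀ n, AEMeasurable (edgePair n k (m n) t) (P n)) ∧ AEMeasurable (airyPair k lam t) P' ∧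
      ∀ l : Filter ℕ, l.NeBot → l ≤ atTop →
        ¬ TendstoInDistribution (fun n => edgePair n k (m n) t) l (airyPair k lam t) P P' := by
  obtain ⟨c, hc, hcK⟩ := hAB Ω' P' a ξ B lam ha hξ hB hlam t ht
  have hlarge : ∀ᶠ k : ℕ in atTop, Real.pi ^ 2 * k * t < c * (k:ℝ) ^ (4 / 3 : ℝ) := by
    have h1 : Tendsto (fun k : ℕ => (k:ℝ) ^ (1 / 3 : ℝ)) atTop atTop :=
      (tendsto_rpow_atTop (by norm_num)).comp tendsto_natCast_atTop_atTop
    filter_upwards [h1.eventually_gt_atTop (Real.pi ^ 2 * t / c), eventually_ge_atTop 1] with k hk hk1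
    have hkpos : (0:ℝ) < k := by exact_mod_cast hk1
    have h2 : (k:ℝ) ^ (4 / 3 : ℝ) = k * (k:ℝ) ^ (1 / 3 : ℝ) := by
      nth_rw 2 [← Real.rpow_one (k:ℝ)]
      rw [← Real.rpow_add hkpos]; norm_num
    rw [h2]
    rw [div_lt_iff₀ hc] at hk
    nlinarith
  filter_upwards [hcK, hlarge] with k h1 h2 Ω _ P _ m hm
  refine ⟨fun n => ?_, ?_, ?_⟩
  · exact (aemeasurable_edgeVec hGM (hm n) k 0).prodMk (aemeasurable_edgeVec hGM (hm n) k _)
  · refine AEMeasurable.prodMk ?_ ?_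
    · exact aemeasurable_pi_lambda _ fun j => hAM Ω' P' a ξ B lam hξ hB hlam 0 j
    · exact aemeasurable_pi_lambda _ fun j => hAM Ω' P' a ξ B lam hξ hB hlam t j
  · intro l hl1 hl2 hcon
    have h3 := lintegral_limit_le hcon (K := ENNReal.ofReal (Real.pi ^ 2 * k * t)) (by
      filter_upwards [hl2 (eventually_ge_atTop k), hl2 (eventually_ge_atTop 1)] with n hn hn1
      exact edge_bound hGB (hm n) hn hn1 t)
    have h4 : ∀ ω, (∑ j, (airyPair k lam t ω).2 j - ∑ j, (airyPair k lam t ω).1 j) ^ 2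
        = (∑ j ∈ Finset.range k, lam t ω j - ∑ j ∈ Finset.range k, lam 0 ω j) ^ 2 := by
      intro ω
      simp only [airyPair, Finset.sum_range]
    simp_rw [h4] at h3
    have h5 := h1.trans h3
    rw [ENNReal.ofReal_le_ofReal_iff (by positivity)] at h5
    linarith

end Pool.Agent.W798.DBM
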