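import Pool.Agent.W798.DBM.Basic

/-!
# Statements of the parts of the proof (MP_c8b564_pr)
-/

namespace Pool.Agent.W798.DBM

open MeasureTheory ProbabilityTheory Set Filter Topology
open scoped NNReal ENNReal

universe u

/-! ### Random matrix side -/

/-- DB-KF: Ky Fan: `topSum` is a maximum of linear functionals `A ↦ tr (p A)`, `p` a projection. -/
def TKyFan : Prop := ∀ (n k : ℕ), k ≤ n → ∀ A : Matrix (Fin n) (Fin n) ℝ, A.IsHermitian →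
  ∃ p : Fin n → Fin n → ℝ, (∀ i j, p i j = p j i) ∧ ∑ i, ∑ j, p i j ^ 2 = k ∧
    topSum k A = ∑ i, ∑ j, p i j * A i j ∧
    ∀ A' : Matrix (Fin n) (Fin n) ℝ, A'.IsHermitian → ∑ i, ∑ j, p i j * A' i j ≤ topSum k A'

/-- the standard Gaussian measure on `ι → ℝ` -/
noncomputable def gam (ι : Type) [Fintype ι] : Measure (ι → ℝ) := Measure.pi fun _ => gaussianReal 0 1

/-- DB-CH: the rotation chain. -/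
def TChain : Prop := ∀ (ι : Type) [Fintype ι] (F : (ι → ℝ) → ℝ) (K : ℝ), Measurable F → 0 ≤ K →
  (∀ b, ∃ p : ι → ℝ, ∑ i, p i ^ 2 ≤ K ∧ F b = ∑ i, p i * b i ∧ ∀ b', ∑ i, p i * b' i ≤ F b') →
  ∀ θ : ℝ, ∫⁻ q, ENNReal.ofReal
    ((F (fun i => Real.cos θ * q.1 i + Real.sin θ * q.2 i) - F q.1) ^ 2) ∂((gam ι).prod (gam ι))
    ≤ ENNReal.ofReal (2 * K * θ ^ 2)

/-- DB-GL: the law of the stationary GOE process at the times `0` and `s`. -/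
def TGOELaw : Prop := ∀ (Ω : Type u) [MeasurableSpace Ω] (P : Measure Ω) [IsProbabilityMeasure P]
  (n : ℕ) (m : ℝ≥0 → Ω → Matrix (Fin n) (Fin n) ℝ), IsStationaryGOE P n m →
  ∀ (s : ℝ≥0) (θ : ℝ), Real.cos θ = Real.exp (-(s:ℝ)) →
  P.map (fun ω => ((fun (i : Fin n × Fin n) => m 0 ω i.1 i.2),
      (fun (i : Fin n × Fin n) => m s ω i.1 i.2)))
    = ((gam (Fin n × Fin n)).prod (gam (Fin n × Fin n))).map (fun q =>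
      ((fun (i : Fin n × Fin n) => (q.1 (i.1, i.2) + q.1 (i.2, i.1)) / √2),
       (fun (i : Fin n × Fin n) => (Real.cos θ * (q.1 (i.1, i.2) + q.1 (i.2, i.1))
          + Real.sin θ * (q.2 (i.1, i.2) + q.2 (i.2, i.1))) / √2)))

/-- measurability of the eigenvalues of the GOE process -/
def TGOEMeas : Prop := ∀ (Ω : Type u) [MeasurableSpace Ω] (P : Measure Ω) [IsProbabilityMeasure P]
  (n : ℕ) (m : ℝ≥0 → Ω → Matrix (Fin n) (Fin n) ℝ), IsStationaryGOE P n m →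
  ∀ (s : ℝ≥0) (j : ℕ), AEMeasurable (fun ω => eig (m s ω) j) P

/-- the mean square increment of the sum of the `k` largest eigenvalues of the GOE process -/
def TGOEBound : Prop := ∀ (Ω : Type u) [MeasurableSpace Ω] (P : Measure Ω) [IsProbabilityMeasure P]
  (n : ℕ) (m : ℝ≥0 → Ω → Matrix (Fin n) (Fin n) ℝ), IsStationaryGOE P n m →
  ∀ (k : ℕ), k ≤ n → ∀ s : ℝ≥0,
  ∫⁻ ω, ENNReal.ofReal ((topSum k (m s ω) - topSum k (m 0 ω)) ^ 2) ∂P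
    ≤ ENNReal.ofReal (2 * Real.pi ^ 2 * k * s)

/-- DB-GB -/
def TGOE : Prop := TKyFan → TChain → TGOELaw.{u} → TGOEMeas.{u} ∧ TGOEBound.{u}

/-! ### Gaussian reflection -/

/-- DB-RF: reflecting a centered Gaussian family in the direction of `X = Y i₁ - Y i₀` does not
change its law. -/
def TReflect : Prop := ∀ (Ω : Type u) [MeasurableSpace Ω] (P : Measure Ω) [IsProbabilityMeasure P]
  (ι : Type) [Countable ι] (Y : ι → Ω → ℝ) (i₀ i₁ : ι) (v : ℝ) (c : ι → ℝ),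
  IsGaussianProcess Y P → (∀ i, ∫ ω, Y i ω ∂P = 0) →
  (∫ ω, (Y i₁ ω - Y i₀ ω) ^ 2 ∂P = v) → 0 < v →
  (∀ i, ∫ ω, Y i ω * (Y i₁ ω - Y i₀ ω) ∂P = c i) →
  P.map (fun ω i => Y i ω) = P.map (fun ω i => Y i ω - 2 * c i / v * (Y i₁ ω - Y i₀ ω))

/-! ### The space `H11` -/

/-- DB-HB (1) -/
def TSup : Prop := ∀ (u : H11) (x : ℝ), 0 ≤ x → fn u x ^ 2 ≤
  2 * (√(∫ y in Ioi (0:ℝ), fn u y ^ 2) * √(∫ y in Ioi (0:ℝ), dv u y ^ 2))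

/-- DB-HB (2) -/
def TVar : Prop := ∀ (u : H11) (a b : ℝ), 0 ≤ a → a ≤ b →
  |fn u b ^ 2 - fn u a ^ 2| ≤ ∫ y in a..b, 2 * |fn u y * dv u y|

/-- DB-HB (3) -/
def TCont : Prop := ∀ (f : ℕ → H11) (g : H11), Tendsto (fun n => hnsq (f n - g)) atTop (𝓝 0) →
  Tendsto (fun n => energy (f n) (f n)) atTop (𝓝 (energy g g)) ∧
  Tendsto (fun n => ip (f n) (f n)) atTop (𝓝 (ip g g)) ∧
  ∀ h : ℝ → ℝ, Measurable h → (∀ x, |h x| ≤ 1) → Tendsto (fun n => ∫ x in Ioi (0:ℝ),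
    h x * fn (f n) x ^ 2) atTop (𝓝 (∫ x in Ioi (0:ℝ), h x * fn g x ^ 2))

/-- DB-DE: every set of `k`-tuples contains a countable subset which is dense in it. -/
def TDense : Prop := ∀ (k : ℕ) (S : Set (Fin k → H11)), ∃ D ⊆ S, D.Countable ∧
  ∀ f ∈ S, ∃ g : ℕ → Fin k → H11, (∀ n, g n ∈ D) ∧
    ∀ j, Tendsto (fun n => hnsq (g n j - f j)) atTop (𝓝 0)

/-- DB-TR: trial functions. -/
def TTrial : Prop := ∃ K₁ : ℝ, ∀ k : ℕ, 1 ≤ k → ∃ b : Fin k → H11, ∀ c : Fin k → ℝ,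
  energy (∑ i, c i • b i) (∑ i, c i • b i)
    ≤ K₁ * (k:ℝ) ^ (2 / 3 : ℝ) * ip (∑ i, c i • b i) (∑ i, c i • b i) ∧
  (ip (∑ i, c i • b i) (∑ i, c i • b i) = 0 → c = 0)

/-! ### The noise form -/

/-- dyadic intervals -/
def dyI (m j i : ℕ) : Set ℝ := Ico ((m:ℝ) + i / 2 ^ j) ((m:ℝ) + (i + 1) / 2 ^ j)

lemma measurableSet_dyI (m j i : ℕ) : MeasurableSet (dyI m j i) := measurableSet_Ico

lemma hl_dyI_ne_top (m j i : ℕ) : hl (dyI m j i) ≠ ∞ := by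
  unfold hl dyI
  refine ne_of_lt (lt_of_le_of_lt (Measure.restrict_apply_le _ _) ?_)
  rw [Real.volume_Ico]
  exact ENNReal.ofReal_lt_top

/-- the indicator of a dyadic interval as an element of `L²(0,∞)` -/
noncomputable def dy (m j i : ℕ) : Lp ℝ 2 hl :=
  indicatorConstLp 2 (measurableSet_dyI m j i) (hl_dyI_ne_top m j i) (1:ℝ)

/-- DB-N1: moment bounds. -/
def TNMom : Prop := ∀ (Ω : Type u) [MeasurableSpace Ω] (P : Measure Ω) [IsProbabilityMeasure P]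
  (a : ℝ) (ξ : ℝ≥0 → Lp ℝ 2 hl → Ω → ℝ), IsOUWhiteNoise P a ξ → ∀ t : ℝ≥0,
  ∃ C : Ω → ℝ, Measurable C ∧ (∀ ω, 0 ≤ C ω) ∧ ∀ᵐ ω ∂P, ∀ m : ℕ,
    |ξ t (dy m 0 0) ω| ≤ C ω * ((m:ℝ) + 1) ^ (1 / 4 : ℝ) ∧
    ∀ j i, i < 2 ^ j → |ξ t (dy m (j + 1) (2 * i + 1)) ω|
      ≤ (2:ℝ) ^ (-(j:ℝ) / 8) * (C ω * ((m:ℝ) + 1) ^ (1 / 4 : ℝ))

/-- DB-N3 (1) -/
def TNAdd : Prop := ∀ (Ω : Type u) [MeasurableSpace Ω] (P : Measure Ω) [IsProbabilityMeasure P]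
  (a : ℝ) (ξ : ℝ≥0 → Lp ℝ 2 hl → Ω → ℝ), IsOUWhiteNoise P a ξ → ∀ t : ℝ≥0,
  ∀ᵐ ω ∂P, ∀ m j i, ξ t (dy m j i) ω
    = ξ t (dy m (j + 1) (2 * i)) ω + ξ t (dy m (j + 1) (2 * i + 1)) ω

/-- DB-N3 (2) -/
def TNConv : Prop := ∀ (Ω : Type u) [MeasurableSpace Ω] (P : Measure Ω) [IsProbabilityMeasure P]
  (a : ℝ) (ξ : ℝ≥0 → Lp ℝ 2 hl → Ω → ℝ), IsOUWhiteNoise P a ξ → ∀ (t : ℝ≥0) (u : H11)
  (F : Lp ℝ 2 hl), (F : ℝ → ℝ) =ᵐ[hl] (fun x => fn u x * fn u x) →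
  ∃ J : ℕ → ℕ, StrictMono J ∧ ∀ᵐ ω ∂P, Tendsto (fun r => ∑ m ∈ Finset.range (J r),
    ∑ i ∈ Finset.range (2 ^ J r), fn u ((m:ℝ) + i / 2 ^ J r) ^ 2 * ξ t (dy m (J r) i) ω)
    atTop (𝓝 (ξ t F ω))

/-- DB-N2 (1): deterministic chaining. -/
def TNDet (C₁ : ℝ) : Prop := ∀ (u : H11) (W : ℕ → ℕ → ℕ → ℝ) (κ : ℕ → ℝ), (∀ m, 0 ≤ κ m) →
  (∀ m, |W m 0 0| ≤ κ m) →
  (∀ m j i, i < 2 ^ j → |W m (j + 1) (2 * i + 1)| ≤ (2:ℝ) ^ (-(j:ℝ) / 8) * κ m) →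
  (∀ m j i, i < 2 ^ j → W m j i = W m (j + 1) (2 * i) + W m (j + 1) (2 * i + 1)) →
  ∀ M J : ℕ, |∑ m ∈ Finset.range M, ∑ i ∈ Finset.range (2 ^ J),
      fn u ((m:ℝ) + i / 2 ^ J) ^ 2 * W m J i|
    ≤ ∑ m ∈ Finset.range M, κ m * ((∫ x in (m:ℝ)..(m + 1), fn u x ^ 2)
        + C₁ * ∫ x in (m:ℝ)..(m + 1), 2 * |fn u x * dv u x|)

/-- DB-N2 (2) -/
def TNSum : Prop := ∀ (C₁ C : ℝ), 0 ≤ C₁ → 0 ≤ C → ∀ (u : H11) (κ : ℕ → ℝ) (M : ℕ),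
  (∀ m, 0 ≤ κ m ∧ κ m ≤ C * ((m:ℝ) + 1) ^ (1 / 4 : ℝ)) →
  ∑ m ∈ Finset.range M, κ m * ((∫ x in (m:ℝ)..(m + 1), fn u x ^ 2)
      + C₁ * ∫ x in (m:ℝ)..(m + 1), 2 * |fn u x * dv u x|)
    ≤ 1 / 4 * energy u u + (1 / 4 + 32 * C₁ ^ 4 * C ^ 4 + 2 * C ^ 2) * ip u u

/-- relative form bound for the noise -/
def TNoise : Prop := ∀ (Ω : Type u) [MeasurableSpace Ω] (P : Measure Ω) [IsProbabilityMeasure P]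
  (a : ℝ) (ξ : ℝ≥0 → Lp ℝ 2 hl → Ω → ℝ) (B : ℝ≥0 → Ω → H11 →ₗ[ℝ] H11 →ₗ[ℝ] ℝ),
  IsOUWhiteNoise P a ξ → IsNoiseForm P ξ B → ∀ t : ℝ≥0, ∃ C : Ω → ℝ, Measurable C ∧
  ∀ᵐ ω ∂P, ∀ u : H11, |B t ω u u| ≤ 1 / 4 * energy u u + C ω * ip u u

/-- DB-N5 -/
def TNAsm : Prop := TCont → TDense → TNMom.{u} → TNAdd.{u} → TNConv.{u} →
  (∃ C₁, 0 ≤ C₁ ∧ TNDet C₁) → TNSum → TNoise.{u}

/-! ### Deterministic spectral theory -/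

/-- an eigensystem of the form `Q` -/
def IsEigSys (Q : H11 → H11 → ℝ) (lam : ℕ → ℝ) (φ : ℕ → H11) : Prop :=
  ∀ j, ip (φ j) (φ j) = 1 ∧ (∀ i < j, ip (φ i) (φ j) = 0) ∧ Q (φ j) (φ j) = lam j ∧
    ∀ f : H11, ip f f = 1 → (∀ i < j, ip (φ i) f = 0) → lam j ≤ Q f f

lemma isEigenvalues_iff (Q : H11 → H11 → ℝ) (lam : ℕ → ℝ) :
    IsEigenvalues Q lam ↔ ∃ φ, IsEigSys Q lam φ := Iff.rfl

/-- DB-MA (1): Ky Fan -/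
def TKF : Prop := ∀ (b : H11 →ₗ[ℝ] H11 →ₗ[ℝ] ℝ) (lam : ℕ → ℝ) (φ : ℕ → H11),
  (∀ f g, b f g = b g f) → IsEigSys (dsaForm 1 b) lam φ → ∀ (k : ℕ) (f : Fin k → H11), Orthon f →
  ∑ j ∈ Finset.range k, lam j ≤ ∑ j, dsaForm 1 b (f j) (f j)

/-- DB-MA (2): half of the mass of the first `k` eigenfunctions lies in `[1, κ k^{2/3}]` -/
def TMass : Prop := ∀ N : ℝ, ∃ κ : ℝ, 0 < κ ∧ ∀ᶠ k : ℕ in atTop,
  ∀ (b : H11 →ₗ[ℝ] H11 →ₗ[ℝ] ℝ) (lam : ℕ → ℝ) (φ : ℕ → H11),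
  (∀ f g, b f g = b g f) → (∀ u, |b u u| ≤ 1 / 4 * energy u u + N * ip u u) →
  IsEigSys (dsaForm 1 b) lam φ →
  (k:ℝ) / 2 ≤ ∑ j ∈ Finset.range k, ∫ x in Ioc (1:ℝ) (κ * (k:ℝ) ^ (2 / 3 : ℝ)), fn (φ j) x ^ 2

/-- DB-MA -/
def TMA : Prop := TSup → TTrial → TKF ∧ TMass

/-! ### Airy side -/

/-- measurability of the eigenvalues -/
def TAiryMeas : Prop := ∀ (Ω : Type u) [MeasurableSpace Ω] (P : Measure Ω) [IsProbabilityMeasure P]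
  (a : ℝ) (ξ : ℝ≥0 → Lp ℝ 2 hl → Ω → ℝ) (B : ℝ≥0 → Ω → H11 →ₗ[ℝ] H11 →ₗ[ℝ] ℝ)
  (lam : ℝ≥0 → Ω → ℕ → ℝ), IsOUWhiteNoise P a ξ → IsNoiseForm P ξ B →
  (∀ t, ∀ᵐ ω ∂P, IsEigenvalues (dsaForm 1 (B t ω)) (lam t ω)) →
  ∀ (t : ℝ≥0) (j : ℕ), AEMeasurable (fun ω => lam t ω j) P

/-- the mean square increment of the sum of the first `k` eigenvalues is at least `c k^{4/3}` -/
def TAiryBound : Prop := ∀ (Ω : Type u) [MeasurableSpace Ω] (P : Measure Ω) [IsProbabilityMeasure P]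
  (a : ℝ) (ξ : ℝ≥0 → Lp ℝ 2 hl → Ω → ℝ) (B : ℝ≥0 → Ω → H11 →ₗ[ℝ] H11 →ₗ[ℝ] ℝ)
  (lam : ℝ≥0 → Ω → ℕ → ℝ), 0 < a → IsOUWhiteNoise P a ξ → IsNoiseForm P ξ B →
  (∀ t, ∀ᵐ ω ∂P, IsEigenvalues (dsaForm 1 (B t ω)) (lam t ω)) →
  ∀ t : ℝ≥0, 0 < t → ∃ c : ℝ, 0 < c ∧ ∀ᶠ k : ℕ in atTop,
    ENNReal.ofReal (c * (k:ℝ) ^ (4 / 3 : ℝ)) ≤ ∫⁻ ω, ENNReal.ofReal
      ((∑ j ∈ Finset.range k, lam t ω j - ∑ j ∈ Finset.range k, lam 0 ω j) ^ 2) ∂P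

end Pool.Agent.W798.DBM
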